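import Pool.Agent.Helper65.LT.Pb

/-!
PROJECT LT (MP_274814), block F4-F6 (periods), captain helper65. Part c: the punctured disc at infinity, `exists_per`.
-/

namespace Pool.Agent.Helper65.LT

open Pool.Agent.Helper34.LT Finset Complex Filter Topology

noncomputable section

/-- `q (al_u + be_u - 1)` -/
def ke (q a b u : ℕ) : ℤ := (Nk q a b u : ℤ) - q

/-- `s^{-N_k} (1-s^q)^{be_k}` -/
def w0 (q a b k : ℕ) (s : ℂ) : ℂ := s ^ (-(Nk q a b k : ℤ)) * (1 - s ^ q) ^ (al q b k : ℂ)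

/-- the function `phi` on the punctured unit disc -/
def phs (q a b : ℕ) (P : Polynomial ℤ) (s : ℂ) : ℂ :=
  exp (∑ u ∈ Icc 1 (q - 1), exp (-(Real.pi * I * ((al q b u : ℂ) - 1))) * cu q a b P u *
    (s ^ (-(ke q a b u)) * gam (al q a u) (al q b u) (s ^ q)))

theorem P13a_im {l : ℂ} (h0 : 0 < l.im) (h1 : l.im < Real.pi) : 0 < (exp l).im := by
  rw [Complex.exp_im]
  exact mul_pos (Real.exp_pos _) (Real.sin_pos_of_pos_of_lt_pi h0 h1)

theorem P13a_cpow {l : ℂ} (h0 : 0 < l.im) (h1 : l.im < Real.pi) (c : ℂ) :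
    exp l ^ c = exp (l * c) := by
  rw [Complex.cpow_def_of_ne_zero (Complex.exp_ne_zero l),
    Complex.log_exp (by linarith [Real.pi_pos]) h1.le]

theorem P13a_pow {q : ℕ} (hq : q ≠ 0) (l : ℂ) : exp (-(l / q)) ^ q = (exp l)⁻¹ := by
  have hq' : (q : ℂ) ≠ 0 := Nat.cast_ne_zero.2 hq
  rw [← Complex.exp_nat_mul, ← Complex.exp_neg]
  congr 1
  field_simp

theorem P13a_zpow (q : ℕ) (l : ℂ) (n : ℤ) : exp (-(l / q)) ^ n = exp (l * (-(n : ℂ) / q)) := by
  rw [← Complex.exp_int_mul]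
  congr 1
  ring

theorem Gh_eq {q a b u : ℕ} (hq : q ≠ 0) {l : ℂ} (h0 : 0 < l.im) (h1 : l.im < Real.pi) :
    Gh (al q a u) (al q b u) (exp l) =
      exp (-(l / q)) ^ (-(ke q a b u)) * gam (al q a u) (al q b u) (exp (-(l / q)) ^ q) := by
  have hq' : (q : ℂ) ≠ 0 := Nat.cast_ne_zero.2 hq
  unfold Gh
  rw [P13a_cpow h0 h1, P13a_pow hq, P13a_zpow]
  congr 2
  unfold ke Nk al
  generalize (u * a) % q = A
  generalize (u * b) % q = B
  push_cast
  field_simp

theorem w0_eq {q a b k : ℕ} (hq : q ≠ 0) {l : ℂ} (h0 : 0 < l.im) (h1 : l.im < Real.pi) :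
    exp l ^ (al q a k : ℂ) * (1 - exp l) ^ (al q b k : ℂ) =
      exp (-(Real.pi * I * (al q b k : ℂ))) * w0 q a b k (exp (-(l / q))) := by
  have hq' : (q : ℂ) ≠ 0 := Nat.cast_ne_zero.2 hq
  unfold w0
  rw [one_sub_cpow_pos (P13a_im h0 h1), P13a_cpow h0 h1, P13a_cpow h0 h1, P13a_pow hq, P13a_zpow]
  have h2 : exp (l * (-((-(Nk q a b k : ℤ) : ℤ) : ℂ) / q)) =
      exp (l * (al q a k : ℂ)) * exp (l * (al q b k : ℂ)) := by
    rw [← Complex.exp_add]
    congr 1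
    unfold Nk al
    generalize (k * a) % q = A
    generalize (k * b) % q = B
    push_cast
    field_simp
  rw [h2]
  ring

/-- the point of the punctured disc -/
private def P13b_s (q : ℕ) (l : ℂ) : ℂ := exp (-(l / q))

private theorem P13b_s_ne (q : ℕ) (l : ℂ) : P13b_s q l ≠ 0 := Complex.exp_ne_zero _

private theorem P13b_s_diff (q : ℕ) : Differentiable ℂ (P13b_s q) := by
  unfold P13b_s
  fun_prop

private theorem P13b_s_zpow {q : ℕ} (hq : q ≠ 0) (l : ℂ) : P13b_s q l ^ (-(q : ℤ)) = exp l := by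
  unfold P13b_s
  rw [← Complex.exp_int_mul]
  congr 1
  have : (q : ℂ) ≠ 0 := by exact_mod_cast hq
  push_cast
  field_simp

private theorem P13b_s_norm {q : ℕ} (hq : q ≠ 0) {l : ℂ} (hl : 0 < l.re) : ‖P13b_s q l‖ < 1 := by
  unfold P13b_s
  rw [Complex.norm_exp, Real.exp_lt_one_iff]
  have h1 : (-(l / q)).re = -(l.re / q) := by
    rw [Complex.neg_re, Complex.div_natCast_re]
  rw [h1]
  have h2 : (0 : ℝ) < q := by exact_mod_cast Nat.pos_of_ne_zero hq
  have := div_pos hl h2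
  linarith

private theorem P13b_pow_norm {q : ℕ} (hq : q ≠ 0) {l : ℂ} (hl : 0 < l.re) :
    ‖P13b_s q l ^ q‖ < 1 := by
  rw [norm_pow]
  exact pow_lt_one₀ (norm_nonneg _) (P13b_s_norm hq hl) hq

private theorem P13b_slit {y : ℂ} (hy : ‖y‖ < 1) : 1 - y ∈ slitPlane := by
  left
  rw [Complex.sub_re, Complex.one_re]
  have := (Complex.re_le_norm y).trans_lt hy
  linarith

private theorem P13b_open : IsOpen {l : ℂ | 0 < l.re} :=
  isOpen_lt continuous_const Complex.continuous_re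

private theorem P13b_left_diff {q a b : ℕ} (hq : q ≠ 0)
    (hne : ∀ u ∈ Icc 1 (q - 1), ∀ p : ℤ, al q a u + al q b u - 1 ≠ p) (P : Polynomial ℤ) :
    DifferentiableOn ℂ (fun l => phs q a b P (P13b_s q l)) {l : ℂ | 0 < l.re} := by
  unfold phs
  refine DifferentiableOn.cexp ?_
  refine DifferentiableOn.fun_sum fun u hu => ?_
  refine DifferentiableOn.mul (differentiableOn_const _) (DifferentiableOn.mul ?_ ?_)
  · intro l _
    exact ((P13b_s_diff q l).zpow (Or.inl (P13b_s_ne q l))).differentiableWithinAt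
  · have h1 : DifferentiableOn ℂ (gam (al q a u) (al q b u)) (Metric.ball 0 1) :=
      gam_diff fun p => hne u hu p
    have h2 : DifferentiableOn ℂ (fun l => P13b_s q l ^ q) {l : ℂ | 0 < l.re} :=
      ((P13b_s_diff q).pow q).differentiableOn
    refine h1.comp h2 fun l hl => ?_
    rw [mem_ball_zero_iff]
    exact P13b_pow_norm hq hl

private theorem P13b_right_diff {q a b : ℕ} (hq : q ≠ 0) (H : ℕ → ℂ → ℂ)
    (hd : ∀ k, Differentiable ℂ (H k)) :
    DifferentiableOn ℂ (fun l => ∑ k ∈ range q, H k (P13b_s q l ^ (-(q : ℤ))) *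
      (exp (-(Real.pi * I * (al q b k : ℂ))) * w0 q a b k (P13b_s q l))) {l : ℂ | 0 < l.re} := by
  refine DifferentiableOn.fun_sum fun k hk => ?_
  have hz : ∀ n : ℤ, DifferentiableOn ℂ (fun l => P13b_s q l ^ n) {l : ℂ | 0 < l.re} :=
    fun n l _ => ((P13b_s_diff q l).zpow (Or.inl (P13b_s_ne q l))).differentiableWithinAt
  refine DifferentiableOn.mul ?_ (DifferentiableOn.mul (differentiableOn_const _) ?_)
  · exact (hd k).comp_differentiableOn (hz _)
  · unfold w0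
    refine (hz _).mul ?_
    have h2 : DifferentiableOn ℂ (fun l => 1 - P13b_s q l ^ q) {l : ℂ | 0 < l.re} :=
      (differentiableOn_const _).sub ((P13b_s_diff q).pow q).differentiableOn
    refine h2.cpow (differentiableOn_const _) fun l hl => ?_
    exact P13b_slit (P13b_pow_norm hq hl)

private theorem P13b_strip {q a b : ℕ} (hq : q ≠ 0) (P : Polynomial ℤ)
    (hinf : ∀ x : ℂ, 0 < x.im → 1 < ‖x‖ → Th q a b P 0 x = exp (∑ u ∈ Icc 1 (q - 1),
      exp (-(Real.pi * I * ((al q b u : ℂ) - 1))) * cu q a b P u * Gh (al q a u) (al q b u) x))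
    (H : ℕ → ℂ → ℂ)
    (hH : ∀ x ∈ Om, Th q a b P 0 x =
      ∑ k ∈ range q, H k x * (x ^ (al q a k : ℂ) * (1 - x) ^ (al q b k : ℂ)))
    {l : ℂ} (h0 : 0 < l.re) (h1 : 0 < l.im) (h2 : l.im < Real.pi) :
    phs q a b P (P13b_s q l) = ∑ k ∈ range q, H k (P13b_s q l ^ (-(q : ℤ))) *
      (exp (-(Real.pi * I * (al q b k : ℂ))) * w0 q a b k (P13b_s q l)) := by
  have hx : 0 < (exp l).im := by
    rw [Complex.exp_im]
    exact mul_pos (Real.exp_pos _) (Real.sin_pos_of_pos_of_lt_pi h1 h2)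
  have hn : 1 < ‖exp l‖ := by
    rw [Complex.norm_exp]
    exact Real.one_lt_exp_iff.2 h0
  have hO : exp l ∈ Om := by
    refine ⟨Or.inr hx.ne', Or.inr ?_⟩
    rw [Complex.sub_im, Complex.one_im, zero_sub]
    exact (neg_neg_of_pos hx).ne
  have e1 := hinf _ hx hn
  have e2 := hH (exp l) hO
  rw [e1] at e2
  have e3 : phs q a b P (P13b_s q l) = exp (∑ u ∈ Icc 1 (q - 1),
      exp (-(Real.pi * I * ((al q b u : ℂ) - 1))) * cu q a b P u *
        Gh (al q a u) (al q b u) (exp l)) := by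
    unfold phs
    congr 1
    refine Finset.sum_congr rfl fun u _ => ?_
    rw [Gh_eq hq h1 h2]
    rfl
  rw [e3, e2]
  refine Finset.sum_congr rfl fun k _ => ?_
  rw [P13b_s_zpow hq, w0_eq hq h1 h2]
  rfl

theorem P13b_main {q a b : ℕ} (hq : q ≠ 0)
    (hne : ∀ u ∈ Icc 1 (q - 1), ∀ p : ℤ, al q a u + al q b u - 1 ≠ p) (P : Polynomial ℤ)
    (hinf : ∀ x : ℂ, 0 < x.im → 1 < ‖x‖ → Th q a b P 0 x = exp (∑ u ∈ Icc 1 (q - 1),
      exp (-(Real.pi * I * ((al q b u : ℂ) - 1))) * cu q a b P u * Gh (al q a u) (al q b u) x))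
    (H : ℕ → ℂ → ℂ) (hd : ∀ k, Differentiable ℂ (H k))
    (hH : ∀ x ∈ Om, Th q a b P 0 x =
      ∑ k ∈ range q, H k x * (x ^ (al q a k : ℂ) * (1 - x) ^ (al q b k : ℂ)))
    {s : ℂ} (h0 : s ≠ 0) (h1 : ‖s‖ < 1) :
    phs q a b P s =
      ∑ k ∈ range q, H k (s ^ (-(q : ℤ))) *
        (exp (-(Real.pi * I * (al q b k : ℂ))) * w0 q a b k s) := by
  have hA := (P13b_left_diff (a := a) (b := b) hq hne P).analyticOnNhd P13b_open
  have hB := (P13b_right_diff (a := a) (b := b) hq H hd).analyticOnNhd P13b_open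
  have hU : IsPreconnected {l : ℂ | 0 < l.re} := (convex_halfSpace_re_gt 0).isPreconnected
  have hz : (1 + (Real.pi / 2 : ℝ) * I : ℂ) ∈ {l : ℂ | 0 < l.re} := by
    simp
  have hV : IsOpen {l : ℂ | 0 < l.re ∧ 0 < l.im ∧ l.im < Real.pi} := by
    refine P13b_open.inter (IsOpen.inter ?_ ?_)
    · exact isOpen_lt continuous_const Complex.continuous_im
    · exact isOpen_lt Complex.continuous_im continuous_const
  have hzV : (1 + (Real.pi / 2 : ℝ) * I : ℂ) ∈ {l : ℂ | 0 < l.re ∧ 0 < l.im ∧ l.im < Real.pi} := by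
    have := Real.pi_pos
    refine ⟨hz, ?_, ?_⟩
    · simp only [Complex.add_im, Complex.one_im, Complex.mul_im, Complex.ofReal_re,
        Complex.I_im, Complex.ofReal_im, Complex.I_re]
      linarith
    · simp only [Complex.add_im, Complex.one_im, Complex.mul_im, Complex.ofReal_re,
        Complex.I_im, Complex.ofReal_im, Complex.I_re]
      linarith
  have hev := hA.eqOn_of_preconnected_of_eventuallyEq hB hU hz
    (Filter.eventuallyEq_of_mem (hV.mem_nhds hzV) fun l hl =>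
      P13b_strip hq P hinf H hH hl.1 hl.2.1 hl.2.2)
  have hq0 : (q : ℂ) ≠ 0 := by exact_mod_cast hq
  have hs : P13b_s q (-(q * Complex.log s)) = s := by
    unfold P13b_s
    have : -(-((q : ℂ) * Complex.log s) / q) = Complex.log s := by
      field_simp
    rw [this, Complex.exp_log h0]
  have hl : (-(q * Complex.log s) : ℂ) ∈ {l : ℂ | 0 < l.re} := by
    have h2 : Real.log ‖s‖ < 0 := Real.log_neg (norm_pos_iff.2 h0) h1
    have h3 : (0 : ℝ) < q := by exact_mod_cast Nat.pos_of_ne_zero hq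
    have h4 : (-(q * Complex.log s) : ℂ).re = -(q * Real.log ‖s‖) := by
      simp [Complex.log_re]
    rw [Set.mem_ofPred_eq, h4]
    have := mul_neg_of_pos_of_neg h3 h2
    linarith
  have h5 := hev hl
  simp only [hs] at h5
  exact h5

theorem phs_eq {q a b : ℕ} (hq : q ≠ 0) (ha : Nat.Coprime a q) (hb : Nat.Coprime b q)
    (hab : Nat.Coprime (a + b) q)
    (P : Polynomial ℤ) (H : ℕ → ℂ → ℂ) (hd : ∀ k, Differentiable ℂ (H k))
    (hH : ∀ x ∈ Om, Th q a b P 0 x =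
      ∑ k ∈ range q, H k x * (x ^ (al q a k : ℂ) * (1 - x) ^ (al q b k : ℂ)))
    {s : ℂ} (h0 : s ≠ 0) (h1 : ‖s‖ < 1) :
    phs q a b P s =
      ∑ k ∈ range q, H k (s ^ (-(q : ℤ))) *
        (exp (-(Real.pi * I * (al q b k : ℂ))) * w0 q a b k s) :=
  P13b_main hq (fun _ hu p => al_add_ne hq hab hu p) P
    (fun _ hx hn => Th_inf hq ha hb hab P hx hn) H hd hH h0 h1

theorem P14b_gam_zero (α β : ℝ) : gam α β 0 = 1 / ((α : ℂ) + β - 1) := by
  unfold gam
  rw [tsum_eq_single 0 (fun p hp => by rw [zero_pow hp, mul_zero])]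
  simp [cc]

theorem P14b_ball {q : ℕ} (hq : q ≠ 0) :
    Set.MapsTo (fun s : ℂ => s ^ q) (Metric.ball 0 1) (Metric.ball 0 1) := by
  intro s hs
  rw [mem_ball_zero_iff] at hs ⊢
  rw [norm_pow]
  exact pow_lt_one₀ (norm_nonneg _) hs hq

/-- the regular part of one term -/
def P14b_R (q a b u : ℕ) (s : ℂ) : ℂ :=
  if u ∈ Phi q a b then s ^ (q - kk q a b u) * dslope (gam (al q a u) (al q b u)) 0 (s ^ q)
  else s ^ (q - Nk q a b u) * gam (al q a u) (al q b u) (s ^ q)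

theorem P14b_R_diff {q a b u : ℕ} (hq : q ≠ 0)
    (hne : ∀ p : ℤ, al q a u + al q b u - 1 ≠ p) :
    DifferentiableOn ℂ (P14b_R q a b u) (Metric.ball 0 1) := by
  have hg : DifferentiableOn ℂ (gam (al q a u) (al q b u)) (Metric.ball 0 1) :=
    gam_diff fun p => by exact_mod_cast hne (p : ℤ)
  have hd : DifferentiableOn ℂ (dslope (gam (al q a u) (al q b u)) 0) (Metric.ball 0 1) :=
    (Complex.differentiableOn_dslope (Metric.ball_mem_nhds 0 one_pos)).2 hg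
  have hp : DifferentiableOn ℂ (fun s : ℂ => s ^ q) (Metric.ball 0 1) :=
    (differentiable_id.pow q).differentiableOn
  by_cases hu : u ∈ Phi q a b
  · have h1 : P14b_R q a b u = fun s : ℂ =>
        s ^ (q - kk q a b u) * dslope (gam (al q a u) (al q b u)) 0 (s ^ q) := by
      funext s
      rw [P14b_R, if_pos hu]
    rw [h1]
    exact (differentiable_id.pow _).differentiableOn.mul (hd.comp hp (P14b_ball hq))
  · have h1 : P14b_R q a b u = fun s : ℂ =>
        s ^ (q - Nk q a b u) * gam (al q a u) (al q b u) (s ^ q) := by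
      funext s
      rw [P14b_R, if_neg hu]
    rw [h1]
    exact (differentiable_id.pow _).differentiableOn.mul (hg.comp hp (P14b_ball hq))

/-- `q (al + be - 1)` -/
theorem P14b_ke {q a b u : ℕ} (hq : q ≠ 0) :
    al q a u + al q b u - 1 = (ke q a b u : ℝ) / q := by
  have hq0 : (q : ℝ) ≠ 0 := by exact_mod_cast hq
  unfold al ke Nk
  rw [Int.cast_sub, Int.cast_natCast, Int.cast_natCast, Nat.cast_add]
  field_simp

/-- one term -/
theorem P14b_term {q a b u : ℕ} (hq : q ≠ 0) (hu : u ∈ Icc 1 (q - 1))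
    (hne : ∀ p : ℤ, al q a u + al q b u - 1 ≠ p) {s : ℂ} (h0 : s ≠ 0) :
    s ^ (-(ke q a b u)) * gam (al q a u) (al q b u) (s ^ q) =
      (if u ∈ Phi q a b then
        1 / ((al q a u : ℂ) + (al q b u : ℂ) - 1) * s ^ (-(kk q a b u : ℤ)) else 0) +
      P14b_R q a b u s := by
  have hmem : u ∈ Phi q a b ↔ q < Nk q a b u := by
    unfold Phi Nk
    rw [mem_filter]
    exact ⟨fun h => h.2, fun h => ⟨hu, h⟩⟩
  have hN : Nk q a b u ≠ q := by
    intro h
    apply hne 0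
    rw [P14b_ke hq, ke, h]
    simp
  by_cases h : u ∈ Phi q a b
  · have hlt := hmem.1 h
    have hk : kk q a b u = Nk q a b u - q := rfl
    have hlt2 : Nk q a b u < 2 * q := by
      have h1 := Nat.mod_lt (u * a) (Nat.pos_of_ne_zero hq)
      have h2 := Nat.mod_lt (u * b) (Nat.pos_of_ne_zero hq)
      unfold Nk
      omega
    have hke : ke q a b u = (kk q a b u : ℤ) := by
      rw [hk, ke]
      omega
    rw [P14b_R, if_pos h, if_pos h, hke]
    have hds : gam (al q a u) (al q b u) (s ^ q) =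
        gam (al q a u) (al q b u) 0 +
          s ^ q * dslope (gam (al q a u) (al q b u)) 0 (s ^ q) := by
      have h1 := sub_smul_dslope (gam (al q a u) (al q b u)) 0 (s ^ q)
      rw [sub_zero, smul_eq_mul] at h1
      rw [h1]
      ring
    have hpow : s ^ (-(kk q a b u : ℤ)) * s ^ q = s ^ (q - kk q a b u) := by
      have h2 : kk q a b u ≤ q := by omega
      rw [← zpow_natCast s q, ← zpow_add₀ h0, ← zpow_natCast s (q - kk q a b u)]
      congr 1
      omega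
    rw [hds, P14b_gam_zero, mul_add, ← mul_assoc, hpow]
    ring
  · have hle : ¬ q < Nk q a b u := fun h1 => h (hmem.2 h1)
    rw [P14b_R, if_neg h, if_neg h, zero_add]
    congr 1
    rw [← zpow_natCast s (q - Nk q a b u), ke]
    congr 1
    omega

/-- PIECE P14b, general form -/
theorem P14b_gen {q a b : ℕ} (hq : q ≠ 0)
    (hne : ∀ u ∈ Icc 1 (q - 1), ∀ p : ℤ, al q a u + al q b u - 1 ≠ p)
    (P : Polynomial ℤ) : ∃ r : ℂ → ℂ, DifferentiableOn ℂ r (Metric.ball 0 1) ∧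
      ∀ s : ℂ, s ≠ 0 → ‖s‖ < 1 → phs q a b P s = ex q a b (lam q a b P) s * exp (r s) := by
  refine ⟨fun s => ∑ u ∈ Icc 1 (q - 1),
    exp (-(Real.pi * I * ((al q b u : ℂ) - 1))) * cu q a b P u * P14b_R q a b u s, ?_, ?_⟩
  · exact DifferentiableOn.fun_sum fun u hu => (P14b_R_diff hq (hne u hu)).const_mul _
  · intro s h0 h1
    unfold phs ex
    rw [← exp_add]
    congr 1
    have e1 : ∑ u : Phi q a b, lam q a b P u * s ^ (-(kk q a b u : ℤ)) =
        ∑ u ∈ Phi q a b, rho q a b u * Polynomial.aeval (zt q ^ u) P *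
          s ^ (-(kk q a b u : ℤ)) :=
      Finset.sum_coe_sort (Phi q a b) (fun u => rho q a b u * Polynomial.aeval (zt q ^ u) P *
          s ^ (-(kk q a b u : ℤ)))
    have e2 : ∑ u ∈ Phi q a b, rho q a b u * Polynomial.aeval (zt q ^ u) P *
          s ^ (-(kk q a b u : ℤ)) =
        ∑ u ∈ Icc 1 (q - 1), if u ∈ Phi q a b then
          rho q a b u * Polynomial.aeval (zt q ^ u) P * s ^ (-(kk q a b u : ℤ)) else 0 := by
      rw [← Finset.sum_filter]
      refine Finset.sum_congr ?_ fun _ _ => rfl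
      ext u
      rw [mem_filter]
      exact ⟨fun h => ⟨(mem_filter.1 h).1, h⟩, fun h => h.2⟩
    rw [e1, e2, ← Finset.sum_add_distrib]
    refine Finset.sum_congr rfl fun u hu => ?_
    rw [P14b_term hq hu (hne u hu) h0]
    by_cases h : u ∈ Phi q a b
    · rw [if_pos h, if_pos h, rho, cu]
      have h2 : exp (-(Real.pi * I * ((al q b u : ℂ) - 1))) =
          exp (-(I * Real.pi * ((al q b u : ℂ) - 1))) := by
        congr 1
        ring
      rw [h2]
      simp only [div_eq_mul_inv, mul_inv]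
      ring
    · rw [if_neg h, if_neg h]
      ring

theorem phs_split {q a b : ℕ} (hq : q ≠ 0) (hab : Nat.Coprime (a + b) q)
    (P : Polynomial ℤ) : ∃ r : ℂ → ℂ, DifferentiableOn ℂ r (Metric.ball 0 1) ∧
      ∀ s : ℂ, s ≠ 0 → ‖s‖ < 1 → phs q a b P s = ex q a b (lam q a b P) s * exp (r s) :=
  P14b_gen hq (fun _ hu => al_add_ne hq hab hu) P

theorem P15a_ar (q a k l : ℕ) : (k * a) % q + (l * a) % q =
    ((k + l) % q * a) % q + q * (((k * a) % q + (l * a) % q) / q) := by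
  have h1 : ((k + l) % q * a) % q = ((k * a) % q + (l * a) % q) % q := by
    rw [Nat.mod_mul_mod, Nat.add_mul, Nat.add_mod]
  rw [h1, Nat.mod_add_div]

theorem P15a_al (q a k l : ℕ) (hq : q ≠ 0) : (al q a k : ℂ) + (al q a l : ℂ) =
    (al q a ((k + l) % q) : ℂ) + ((((k * a) % q + (l * a) % q) / q : ℕ) : ℂ) := by
  have hq0 : (q : ℝ) ≠ 0 := Nat.cast_ne_zero.2 hq
  have h1 : al q a k + al q a l =
      al q a ((k + l) % q) + ((((k * a) % q + (l * a) % q) / q : ℕ) : ℝ) := by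
    have h2 := congrArg (Nat.cast : ℕ → ℝ) (P15a_ar q a k l)
    rw [Nat.cast_add, Nat.cast_add, Nat.cast_mul] at h2
    unfold al
    rw [← add_div, h2, add_div, mul_div_cancel_left₀ _ hq0]
  exact_mod_cast congrArg (fun t : ℝ => (t : ℂ)) h1

theorem w0_mul {q a b : ℕ} (hq : q ≠ 0) (k l : ℕ) : ∃ E : ℂ → ℂ, Differentiable ℂ E ∧
      ∀ s : ℂ, s ≠ 0 → ‖s‖ < 1 →
        w0 q a b k s * w0 q a b l s = E (s ^ (-(q : ℤ))) * w0 q a b ((k + l) % q) s := by
  obtain ⟨e, he⟩ : ∃ e : ℕ, e = ((k * a) % q + (l * a) % q) / q := ⟨_, rfl⟩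
  obtain ⟨f, hf⟩ : ∃ f : ℕ, f = ((k * b) % q + (l * b) % q) / q := ⟨_, rfl⟩
  refine ⟨fun x => x ^ e * (x - 1) ^ f, by fun_prop, fun s hs hs1 => ?_⟩
  have h1 : 1 - s ^ q ≠ 0 := by
    intro h
    have h2 : ‖s ^ q‖ < 1 := by
      rw [norm_pow]
      exact pow_lt_one₀ (norm_nonneg s) hs1 hq
    rw [← sub_eq_zero.1 h, norm_one] at h2
    exact lt_irrefl _ h2
  have hN : (Nk q a b k : ℤ) + Nk q a b l = Nk q a b ((k + l) % q) + q * (e + f) := by
    have h2 := P15a_ar q a k l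
    have h3 := P15a_ar q b k l
    rw [← he] at h2
    rw [← hf] at h3
    have h4 : Nk q a b k + Nk q a b l = Nk q a b ((k + l) % q) + q * (e + f) := by
      unfold Nk
      rw [mul_add]
      omega
    exact_mod_cast h4
  have h2 : (1 - s ^ q) ^ (al q b k : ℂ) * (1 - s ^ q) ^ (al q b l : ℂ) =
      (1 - s ^ q) ^ (al q b ((k + l) % q) : ℂ) * (1 - s ^ q) ^ f := by
    rw [← cpow_add _ _ h1, P15a_al q b k l hq, cpow_add _ _ h1, cpow_natCast, hf]
  have h3 : s ^ (-(Nk q a b k : ℤ)) * s ^ (-(Nk q a b l : ℤ)) =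
      s ^ (-(Nk q a b ((k + l) % q) : ℤ)) * ((s ^ (-(q : ℤ))) ^ e * (s ^ (-(q : ℤ))) ^ f) := by
    rw [← zpow_add₀ hs, ← pow_add, ← zpow_natCast, ← zpow_mul, ← zpow_add₀ hs]
    congr 1
    push_cast
    linear_combination -hN
  have h4 : (s ^ (-(q : ℤ))) ^ f * (1 - s ^ q) ^ f = (s ^ (-(q : ℤ)) - 1) ^ f := by
    rw [← mul_pow]
    congr 1
    rw [zpow_neg, zpow_natCast, mul_sub, mul_one, inv_mul_cancel₀ (pow_ne_zero q hs)]
  change s ^ (-(Nk q a b k : ℤ)) * (1 - s ^ q) ^ (al q b k : ℂ) *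
    (s ^ (-(Nk q a b l : ℤ)) * (1 - s ^ q) ^ (al q b l : ℂ)) =
    (s ^ (-(q : ℤ))) ^ e * (s ^ (-(q : ℤ)) - 1) ^ f *
      (s ^ (-(Nk q a b ((k + l) % q) : ℤ)) * (1 - s ^ q) ^ (al q b ((k + l) % q) : ℂ))
  rw [← h4]
  calc _ = (s ^ (-(Nk q a b k : ℤ)) * s ^ (-(Nk q a b l : ℤ))) *
        ((1 - s ^ q) ^ (al q b k : ℂ) * (1 - s ^ q) ^ (al q b l : ℂ)) := by ring
    _ = _ := by
      rw [h2, h3]
      ring

theorem ww_eq (q a b n : ℕ) (hq : q ≠ 0) {s : ℂ} (h0 : s ≠ 0) (h1 : ‖s‖ < 1) :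
    ww q a b n s = s ^ (-(n : ℤ)) * (1 - s ^ q) ^ (bt q a b n : ℂ) := by
  have h2 : ‖s ^ q‖ < 1 := by
    rw [norm_pow]
    exact pow_lt_one₀ (norm_nonneg s) h1 hq
  have h3 := (cc_series (bt q a b n) h2).mul_left (s ^ (-(n : ℤ)))
  have h4 : (fun p : ℕ => s ^ (-(n : ℤ)) * ((cc (bt q a b n) p : ℂ) * (s ^ q) ^ p)) =
      fun p : ℕ => (cc (bt q a b n) p : ℂ) * s ^ ((q * p : ℤ) - n) := by
    funext p
    have h5 : s ^ ((q * p : ℤ) - n) = s ^ (-(n : ℤ)) * (s ^ q) ^ p := by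
      rw [sub_eq_add_neg, add_comm, zpow_add₀ h0, ← pow_mul, ← zpow_natCast s (q * p)]
      push_cast
      rfl
    rw [h5]
    ring
  rw [h4] at h3
  exact h3.tsum_eq

theorem P15b_dvd {q a b n : ℕ} (hq : q ≠ 0) (hab : Nat.Coprime (a + b) q) (hn : sg q a b n) :
    q ∣ n - Nk q a b (cls q a b n) := by
  have : NeZero q := ⟨hq⟩
  have h0 : ((a + b : ℕ) : ZMod q) * ((a + b : ℕ) : ZMod q)⁻¹ = 1 :=
    ZMod.coe_mul_inv_eq_one (a + b) hab
  have h1 : ((Nk q a b (cls q a b n) : ℕ) : ZMod q) = (n : ZMod q) := by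
    unfold Nk
    rw [Nat.cast_add, ZMod.natCast_mod, ZMod.natCast_mod, ← Nat.cast_add, ← Nat.mul_add,
      Nat.cast_mul]
    unfold cls
    rw [ZMod.natCast_zmod_val, mul_assoc, mul_comm (((a + b : ℕ) : ZMod q)⁻¹), h0, mul_one]
  rw [← ZMod.natCast_eq_zero_iff, Nat.cast_sub hn, h1, sub_self]

/-- version for coprime numbers -/
theorem ww_sg {q a b n : ℕ} (hq : q ≠ 0) (hab : Nat.Coprime (a + b) q) (hn : sg q a b n)
    {s : ℂ} (h0 : s ≠ 0) (h1 : ‖s‖ < 1) :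
    ww q a b n s =
      (s ^ (-(q : ℤ))) ^ ((n - Nk q a b (cls q a b n)) / q) * w0 q a b (cls q a b n) s := by
  obtain ⟨e, he⟩ := P15b_dvd hq hab hn
  have hle : Nk q a b (cls q a b n) ≤ n := hn
  rw [ww_eq q a b n hq h0 h1, he, Nat.mul_div_cancel_left _ (Nat.pos_of_ne_zero hq)]
  unfold w0 bt
  rw [← mul_assoc]
  congr 1
  have h2 : (n : ℤ) = q * e + Nk q a b (cls q a b n) := by
    have h3 : n = q * e + Nk q a b (cls q a b n) := by omega
    exact_mod_cast h3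
  rw [← zpow_natCast (s ^ (-(q : ℤ))) e, ← zpow_mul, ← zpow_add₀ h0]
  congr 1
  linarith

theorem phs_mul {q a b : ℕ} (hq : q ≠ 0) (hab : Nat.Coprime (a + b) q) (ph : ℂ → ℂ)
    (H : ℕ → ℂ → ℂ) (hd : ∀ k, Differentiable ℂ (H k))
    (hH : ∀ s : ℂ, s ≠ 0 → ‖s‖ < 1 → ph s =
      ∑ k ∈ range q, H k (s ^ (-(q : ℤ))) * (exp (-(Real.pi * I * (al q b k : ℂ))) * w0 q a b k s))
    (n : ℕ) (hn : sg q a b n) :
    ∃ E : ℕ → ℂ → ℂ, (∀ k, Differentiable ℂ (E k)) ∧ ∀ s : ℂ, s ≠ 0 → ‖s‖ < 1 →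
      ph s * ww q a b n s = ∑ k ∈ range q, E k (s ^ (-(q : ℤ))) * w0 q a b k s := by
  choose Ew hEd hEw using fun k => w0_mul (q := q) (a := a) (b := b) hq k (cls q a b n)
  refine ⟨fun j x => ∑ k ∈ (range q).filter (fun k => (k + cls q a b n) % q = j),
    H k x * exp (-(Real.pi * I * (al q b k : ℂ))) * x ^ ((n - Nk q a b (cls q a b n)) / q) *
      Ew k x, ?_, ?_⟩
  · intro j
    exact Differentiable.fun_sum fun k _ =>
      (((hd k).mul_const _).mul (differentiable_id.pow _)).mul (hEd k)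
  · intro s h0 h1
    rw [hH s h0 h1, ww_sg hq hab hn h0 h1, Finset.sum_mul]
    rw [← Finset.sum_fiberwise_of_maps_to (s := range q) (t := range q)
      (g := fun k => (k + cls q a b n) % q) (fun k _ => mem_range.2 (Nat.mod_lt _ (Nat.pos_of_ne_zero hq)))]
    refine Finset.sum_congr rfl fun j _ => ?_
    rw [Finset.sum_mul]
    refine Finset.sum_congr rfl fun k hk => ?_
    have hj := (Finset.mem_filter.1 hk).2
    rw [← hj]
    have h2 := hEw k s h0 h1
    linear_combination (H k (s ^ (-(q : ℤ))) * exp (-(Real.pi * I * (al q b k : ℂ))) *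
      (s ^ (-(q : ℤ))) ^ ((n - Nk q a b (cls q a b n)) / q)) * h2

theorem P16a_Nk_lt {q : ℕ} (a b k : ℕ) (hq : 0 < q) : Nk q a b k < 2 * q := by
  unfold Nk
  have h1 := Nat.mod_lt (k * a) hq
  have h2 := Nat.mod_lt (k * b) hq
  omega

theorem P16a_inf {q : ℕ} (a b : ℕ) (hq : 0 < q) : (setOf (sg q a b)).Infinite := by
  refine Set.infinite_of_injective_forall_mem (f := fun n : ℕ => n + 2 * q)
    (fun x y h => by simpa using h) fun n => ?_
  show Nk q a b (cls q a b (n + 2 * q)) ≤ n + 2 * q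
  have := P16a_Nk_lt (q := q) a b (cls q a b (n + 2 * q)) hq
  omega

theorem P16a_nn {q : ℕ} (a b : ℕ) (hq : 0 < q) (i : ℕ) : sg q a b (nn q a b i) :=
  Nat.nth_mem_of_infinite (P16a_inf a b hq) i

theorem P16a_le {q : ℕ} (a b : ℕ) (hq : 0 < q) (i : ℕ) : i ≤ nn q a b i :=
  (Nat.nth_strictMono (P16a_inf a b hq)).le_apply

theorem P16a_cast (q a b k : ℕ) : ((Nk q a b k : ℕ) : ZMod q) = (k : ZMod q) * ((a + b : ℕ) : ZMod q) := by
  unfold Nk
  rw [Nat.cast_add, ZMod.natCast_mod, ZMod.natCast_mod]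
  push_cast
  ring

theorem P16a_inv {q a b : ℕ} (hc : (a + b).Coprime q) :
    ((a + b : ℕ) : ZMod q) * ((a + b : ℕ) : ZMod q)⁻¹ = 1 :=
  ZMod.coe_mul_inv_eq_one (a + b) hc

theorem P16a_cls_cast {q a b : ℕ} (hq : 0 < q) (n : ℕ) :
    ((cls q a b n : ℕ) : ZMod q) = (n : ZMod q) * ((a + b : ℕ) : ZMod q)⁻¹ := by
  haveI : NeZero q := ⟨hq.ne'⟩
  unfold cls
  rw [ZMod.natCast_zmod_val]

theorem P16a_mod {q a b : ℕ} (hq : 0 < q) (hc : (a + b).Coprime q) (n : ℕ) :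
    ((Nk q a b (cls q a b n) : ℕ) : ZMod q) = (n : ZMod q) := by
  rw [P16a_cast, P16a_cls_cast hq, mul_assoc, mul_comm (((a + b : ℕ) : ZMod q)⁻¹), P16a_inv hc,
    mul_one]

theorem P16a_cls_lt {q : ℕ} (a b : ℕ) (hq : 0 < q) (n : ℕ) : cls q a b n < q := by
  haveI : NeZero q := ⟨hq.ne'⟩
  exact ZMod.val_lt _

theorem P16a_cls {q a b : ℕ} (hc : (a + b).Coprime q) {k : ℕ} (hk : k < q) (e : ℕ) :
    cls q a b (Nk q a b k + q * e) = k := by
  have h1 : ((Nk q a b k + q * e : ℕ) : ZMod q) = (k : ZMod q) * ((a + b : ℕ) : ZMod q) := by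
    rw [Nat.cast_add, P16a_cast, Nat.cast_mul, ZMod.natCast_self, zero_mul, add_zero]
  unfold cls
  rw [h1, mul_assoc, P16a_inv hc, mul_one, ZMod.val_natCast_of_lt hk]

theorem P16a_eq {q a b : ℕ} (hq : 0 < q) (hc : (a + b).Coprime q) {n : ℕ} (hn : sg q a b n) :
    n = Nk q a b (cls q a b n) + q * ((n - Nk q a b (cls q a b n)) / q) := by
  have hn' : Nk q a b (cls q a b n) ≤ n := hn
  have h1 : Nk q a b (cls q a b n) ≡ n [MOD q] := (ZMod.natCast_eq_natCast_iff _ _ q).1 (P16a_mod hq hc n)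
  have h2 : q ∣ n - Nk q a b (cls q a b n) := (Nat.modEq_iff_dvd' hn').1 h1
  rw [Nat.mul_div_cancel' h2]
  omega

theorem P16a_idx {q a b : ℕ} (hq : 0 < q) (hc : (a + b).Coprime q) :
    ∃ f : ℕ ≃ Fin q × ℕ, ∀ i, cls q a b (nn q a b i) = (f i).1 ∧
      nn q a b i = Nk q a b (f i).1 + q * (f i).2 := by
  classical
  let g : ℕ → Fin q × ℕ := fun i => (⟨cls q a b (nn q a b i), P16a_cls_lt a b hq _⟩,
    (nn q a b i - Nk q a b (cls q a b (nn q a b i))) / q)
  have hg : ∀ i, nn q a b i = Nk q a b (g i).1 + q * (g i).2 := fun i =>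
    P16a_eq hq hc (P16a_nn a b hq i)
  have hinj : Function.Injective g := by
    intro i j hij
    have h1 : nn q a b i = nn q a b j := by rw [hg i, hg j, hij]
    exact (Nat.nth_strictMono (P16a_inf a b hq)).injective h1
  have hsurj : Function.Surjective g := by
    rintro ⟨k, e⟩
    have hcl : cls q a b (Nk q a b k + q * e) = k := P16a_cls hc k.2 e
    have hsg : sg q a b (Nk q a b k + q * e) := by
      show Nk q a b (cls q a b (Nk q a b k + q * e)) ≤ _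
      rw [hcl]
      omega
    refine ⟨Nat.count (sg q a b) (Nk q a b k + q * e), ?_⟩
    have hnn : nn q a b (Nat.count (sg q a b) (Nk q a b k + q * e)) = Nk q a b k + q * e :=
      Nat.nth_count hsg
    have h2 : g (Nat.count (sg q a b) (Nk q a b k + q * e)) =
        (⟨cls q a b (Nk q a b k + q * e), P16a_cls_lt a b hq _⟩,
          (Nk q a b k + q * e - Nk q a b (cls q a b (Nk q a b k + q * e))) / q) := by
      show ((⟨cls q a b (nn q a b _), _⟩, _) : Fin q × ℕ) = _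
      simp only [hnn]
    rw [h2]
    refine Prod.ext (Fin.ext hcl) ?_
    show (Nk q a b k + q * e - Nk q a b (cls q a b (Nk q a b k + q * e))) / q = e
    rw [hcl, Nat.add_sub_cancel_left, Nat.mul_div_cancel_left e hq]
  exact ⟨Equiv.ofBijective g ⟨hinj, hsurj⟩, fun i => ⟨rfl, hg i⟩⟩

theorem P16b_summable {q : ℕ} (F : Fin q × ℕ → ℝ) (h0 : ∀ x, 0 ≤ F x)
    (h : ∀ k, Summable fun e => F (k, e)) : Summable F := by
  rw [summable_prod_of_nonneg h0]
  exact ⟨h, (hasSum_fintype _).summable⟩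

theorem P16b_Nk_le (q a b k : ℕ) (hq : 0 < q) : Nk q a b k ≤ 2 * q := by
  unfold Nk
  have h1 := Nat.mod_lt (k * a) hq
  have h2 := Nat.mod_lt (k * b) hq
  omega

theorem P16b_hasSum {q : ℕ} (c : ℕ → ℕ → ℂ) (e w : ℕ → ℂ) (X : ℂ)
    (hc1 : ∀ k, ∀ r : ℝ, 0 ≤ r → Summable fun j => ‖c k j‖ * r ^ j)
    (hc2 : ∀ k, HasSum (fun j => c k j * X ^ j) (e k)) :
    HasSum (fun x : Fin q × ℕ => c x.1 x.2 * (X ^ x.2 * w x.1)) (∑ k ∈ range q, e k * w k) := by
  have h1 : Summable (fun x : Fin q × ℕ => c x.1 x.2 * (X ^ x.2 * w x.1)) := by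
    refine Summable.of_norm ?_
    refine P16b_summable _ (fun x => norm_nonneg _) fun k => ?_
    have h2 := (hc1 k ‖X‖ (norm_nonneg _)).mul_right ‖w k‖
    refine h2.congr fun j => ?_
    rw [norm_mul, norm_mul, norm_pow]
    ring
  have h3 : ∀ k : Fin q, HasSum (fun j => c k j * (X ^ j * w k)) (e k * w k) := by
    intro k
    have h4 := (hc2 k).mul_right (w k)
    refine h4.congr_fun fun j => ?_
    ring
  have h5 := h1.hasSum.prod_fiberwise h3
  have h6 := h5.unique (hasSum_fintype _)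
  rw [Finset.sum_range, ← h6]
  exact h1.hasSum

/-- the statement from its four inputs (no assumption on `q` except `0 < q`) -/
theorem P16b_main {q a b : ℕ} (hq : 0 < q) (f : ℕ ≃ Fin q × ℕ)
    (hf : ∀ i, cls q a b (nn q a b i) = (f i).1 ∧ nn q a b i = Nk q a b (f i).1 + q * (f i).2)
    (hle : ∀ i, i ≤ nn q a b i)
    (hww : ∀ (i : ℕ) (s : ℂ), s ≠ 0 → ‖s‖ < 1 → ww q a b (nn q a b i) s =
      (s ^ (-(q : ℤ))) ^ ((nn q a b i - Nk q a b (cls q a b (nn q a b i))) / q) *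
        w0 q a b (cls q a b (nn q a b i)) s)
    (E : ℕ → ℂ → ℂ) (hE : ∀ k, Differentiable ℂ (E k)) :
    ∃ p : ℕ → ℂ, (Summable fun i => ‖p i‖ * (2:ℝ) ^ i) ∧ ∀ s : ℂ, s ≠ 0 → ‖s‖ < 1 →
      HasSum (fun i => p i * ww q a b (nn q a b i) s)
        (∑ k ∈ range q, E k (s ^ (-(q : ℤ))) * w0 q a b k s) := by
  choose c hc1 hc2 using fun k => taylor_entire (hE k)
  refine ⟨fun i => c (f i).1 (f i).2, ?_, ?_⟩
  · have h1 : Summable (fun x : Fin q × ℕ =>
        ‖c x.1 x.2‖ * ((2:ℝ) ^ (2 * q) * ((2:ℝ) ^ q) ^ x.2)) := by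
      refine P16b_summable _ (fun x => by positivity) fun k => ?_
      have h2 := (hc1 k ((2:ℝ) ^ q) (by positivity)).mul_left ((2:ℝ) ^ (2 * q))
      refine h2.congr fun e => ?_
      ring
    have h2 := (f.summable_iff).2 h1
    refine Summable.of_nonneg_of_le (fun i => by positivity) (fun i => ?_) h2
    show ‖c (f i).1 (f i).2‖ * (2:ℝ) ^ i ≤
      ‖c (f i).1 (f i).2‖ * ((2:ℝ) ^ (2 * q) * ((2:ℝ) ^ q) ^ ((f i).2 : ℕ))
    refine mul_le_mul_of_nonneg_left ?_ (norm_nonneg _)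
    rw [← pow_mul, ← pow_add]
    refine pow_le_pow_right₀ (by norm_num) ?_
    have h3 := hle i
    rw [(hf i).2] at h3
    exact h3.trans (Nat.add_le_add_right (P16b_Nk_le q a b _ hq) _)
  · intro s h0 h1
    have h2 := P16b_hasSum (q := q) c (fun k => E k (s ^ (-(q : ℤ)))) (fun k => w0 q a b k s)
      (s ^ (-(q : ℤ))) hc1 (fun k => hc2 k _)
    have h3 := (f.hasSum_iff).2 h2
    refine h3.congr_fun fun i => ?_
    show c (f i).1 (f i).2 * ww q a b (nn q a b i) s =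
      c (f i).1 (f i).2 * ((s ^ (-(q : ℤ))) ^ ((f i).2 : ℕ) * w0 q a b (f i).1 s)
    have h4 := hww i s h0 h1
    rw [(hf i).1] at h4
    have h5 : (nn q a b i - Nk q a b (f i).1) / q = (f i).2 := by
      rw [(hf i).2, Nat.add_sub_cancel_left, Nat.mul_div_cancel_left _ hq]
    rw [h5] at h4
    rw [h4]

theorem exists_Ph {q a b : ℕ} (hq : q ≠ 0) (hab : Nat.Coprime (a + b) q) (E : ℕ → ℂ → ℂ)
    (hE : ∀ k, Differentiable ℂ (E k)) :
    ∃ p : ℕ → ℂ, (Summable fun i => ‖p i‖ * (2:ℝ) ^ i) ∧ ∀ s : ℂ, s ≠ 0 → ‖s‖ < 1 →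
      HasSum (fun i => p i * ww q a b (nn q a b i) s)
        (∑ k ∈ range q, E k (s ^ (-(q : ℤ))) * w0 q a b k s) := by
  have hq0 : 0 < q := Nat.pos_of_ne_zero hq
  obtain ⟨f, hf⟩ := P16a_idx hq0 hab
  exact P16b_main hq0 f hf (P16a_le a b hq0)
    (fun i s h0 h1 => ww_sg hq hab (P16a_nn a b hq0 i) h0 h1) E hE

/-- P16, general form -/
theorem exists_per_gen (q a b : ℕ) (hq : q ≠ 0) (ha : Nat.Coprime a q) (hb : Nat.Coprime b q)
    (hab : Nat.Coprime (a + b) q) (P : Polynomial ℤ) :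
    ∃ f fp Ph, Per q a b (lam q a b P) f fp Ph := by
  obtain ⟨H, hd, hH⟩ := exists_H hq ha hb P
  have hs : ∀ s : ℂ, s ≠ 0 → ‖s‖ < 1 → _ := fun s h0 h1 =>
    phs_eq hq ha hb hab P H hd (fun x hx => Th_eq_sum hq P H hH hx) (s := s) h0 h1
  obtain ⟨r, hr, hsplit⟩ := phs_split hq hab P
  obtain ⟨fp, hfp, hfps⟩ := taylor one_pos (g := fun s => exp (r s)) hr.cexp
  obtain ⟨f, hf, hfs⟩ := taylor one_pos (g := fun s => exp (-(r s))) hr.neg.cexp
  have hE := fun j => phs_mul hq hab (phs q a b P) H hd hs (nn q a b j)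
    (P16a_nn a b (Nat.pos_of_ne_zero hq) j)
  choose E hEd hEs using hE
  have hp := fun j => exists_Ph hq hab (E j) (hEd j)
  choose p hp1 hp2 using hp
  refine ⟨f, fp, fun i j => p j i, ⟨hf _ (by norm_num) (by norm_num), hfp _ (by norm_num) (by norm_num),
    ?_, hp1, ?_⟩⟩
  · intro s hs2
    have h1 : ‖s‖ < 1 := lt_of_le_of_lt hs2 (by norm_num)
    rw [(hfs s h1).tsum_eq, (hfps s h1).tsum_eq, ← exp_add]
    simp
  · intro s hs2 j
    have h1 : ‖s‖ < 1 := by rw [hs2]; norm_num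
    have h0 : s ≠ 0 := by
      rintro rfl
      norm_num at hs2
    rw [(hfps s h1).tsum_eq, ← hsplit s h0 h1, hEs j s h0 h1, (hp2 j s h0 h1).tsum_eq]

/-- P16, target of the block (Fg.lean) -/
theorem exists_per (q a b : ℕ) (hq : q.Prime) (ha : ¬ q ∣ a) (hb : ¬ q ∣ b) (hab : ¬ q ∣ a + b)
    (_h3 : 3 ≤ q) (P : Polynomial ℤ) : ∃ f fp Ph, Per q a b (lam q a b P) f fp Ph :=
  exists_per_gen q a b hq.ne_zero ((hq.coprime_iff_not_dvd.2 ha).symm)
    ((hq.coprime_iff_not_dvd.2 hb).symm) ((hq.coprime_iff_not_dvd.2 hab).symm) P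

end

end Pool.Agent.Helper65.LT
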