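import Pool.Agent.Helper34.LT.Fd

/-!
PROJECT LT (MP_274814), block F4-F6 (periods), captain helper65. Part a: the local functions.
Plan: team-store LT_F4F6_plan.md.
-/

namespace Pool.Agent.Helper65.LT

open Pool.Agent.Helper34.LT Finset Complex Filter Topology MeasureTheory

noncomputable section

/-- `∫_0^1 r^(α-1) (1-rx)^(β-1) dr`, so that `x^α gg α β x` is the incomplete Beta integral -/
def gg (α β : ℝ) (x : ℂ) : ℂ :=
  ∫ r in (0:ℝ)..1, (r:ℂ) ^ ((α:ℂ) - 1) * (1 - (r:ℂ) * x) ^ ((β:ℂ) - 1)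

/-- the plane without `[1,oo)` -/
def D0 : Set ℂ := {x | 1 - x ∈ slitPlane}

/-- the plane without `(-oo,0]` and `[1,oo)` -/
def Om : Set ℂ := {x | x ∈ slitPlane ∧ 1 - x ∈ slitPlane}

/-- the series at infinity -/
def gam (α β : ℝ) (y : ℂ) : ℂ := ∑' p : ℕ, (cc (β - 1) p : ℂ) / ((α:ℂ) + β - 1 - p) * y ^ p

def Gh (α β : ℝ) (x : ℂ) : ℂ := x ^ ((α:ℂ) + β - 1) * gam α β x⁻¹

theorem isOpen_D0 : IsOpen D0 := by
  have : D0 = (fun x : ℂ => 1 - x) ⁻¹' slitPlane := rfl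
  rw [this]
  exact isOpen_slitPlane.preimage (by fun_prop)

theorem P1_slit {z : ℂ} (hz : z ∈ D0) {r : ℝ} (h0 : 0 ≤ r) (h1 : r ≤ 1) :
    1 - (r : ℂ) * z ∈ slitPlane := by
  have h := Complex.starConvex_one_slitPlane (show 1 - z ∈ slitPlane from hz)
    (sub_nonneg.2 h1) h0 (by ring)
  have h2 : (1 - r) • (1 : ℂ) + r • (1 - z) = 1 - (r : ℂ) * z := by
    rw [Complex.real_smul, Complex.real_smul]
    push_cast
    ring
  rwa [h2] at h

theorem P1_cont {x : ℂ} (hx : x ∈ D0) (c : ℂ) :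
    ContinuousOn (fun r : ℝ => (1 - (r : ℂ) * x) ^ c) (Set.uIcc (0 : ℝ) 1) := by
  intro r hr
  rw [Set.uIcc_of_le zero_le_one] at hr
  have h := P1_slit hx hr.1 hr.2
  refine ContinuousAt.continuousWithinAt ?_
  exact ContinuousAt.cpow (by fun_prop) continuousAt_const h

theorem P1_bound {x : ℂ} {ε : ℝ} (hε : Metric.closedBall x ε ⊆ D0) (c : ℂ) :
    ∃ M : ℝ, ∀ r ∈ Set.Icc (0 : ℝ) 1, ∀ z ∈ Metric.closedBall x ε, ‖(1 - (r : ℂ) * z) ^ c‖ ≤ M := by
  have hK : IsCompact (Set.Icc (0 : ℝ) 1 ×ˢ Metric.closedBall x ε) :=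
    isCompact_Icc.prod (isCompact_closedBall x ε)
  have hf : ContinuousOn (fun p : ℝ × ℂ => (1 - (p.1 : ℂ) * p.2) ^ c)
      (Set.Icc (0 : ℝ) 1 ×ˢ Metric.closedBall x ε) := by
    intro p hp
    have h := P1_slit (hε hp.2) hp.1.1 hp.1.2
    refine ContinuousAt.continuousWithinAt ?_
    exact ContinuousAt.cpow (by fun_prop) continuousAt_const h
  obtain ⟨M, hM⟩ := hK.exists_bound_of_continuousOn hf
  exact ⟨M, fun r hr z hz => hM (r, z) ⟨hr, hz⟩⟩

theorem gg_hasDerivAt {α β : ℝ} (hα : 0 < α) {x : ℂ} (hx : x ∈ D0) :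
    ∃ d : ℂ, HasDerivAt (gg α β) d x ∧ (α:ℂ) * gg α β x + x * d = (1 - x) ^ ((β:ℂ) - 1) := by
  have hopen : IsOpen D0 := isOpen_D0
  obtain ⟨ε, hε0, hε⟩ := Metric.nhds_basis_closedBall.mem_iff.1 (hopen.mem_nhds hx)
  obtain ⟨M, hM⟩ := P1_bound hε ((β : ℂ) - 1 - 1)
  let F : ℂ → ℝ → ℂ := fun z r => (r:ℂ) ^ ((α:ℂ) - 1) * (1 - (r:ℂ) * z) ^ ((β:ℂ) - 1)
  let F' : ℂ → ℝ → ℂ := fun z r =>
    (r:ℂ) ^ ((α:ℂ) - 1) * (((β:ℂ) - 1) * (1 - (r:ℂ) * z) ^ ((β:ℂ) - 1 - 1) * (-(r:ℂ)))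
  have hre : -1 < ((α : ℂ) - 1).re := by
    rw [Complex.sub_re, Complex.ofReal_re, Complex.one_re]
    linarith
  have hint : IntervalIntegrable (fun r : ℝ => (r:ℂ) ^ ((α:ℂ) - 1)) volume 0 1 :=
    intervalIntegral.intervalIntegrable_cpow' hre
  have hF : ∀ z ∈ D0, IntervalIntegrable (F z) volume 0 1 := fun z hz =>
    hint.mul_continuousOn (P1_cont hz _)
  have hF' : ∀ z ∈ D0, IntervalIntegrable (F' z) volume 0 1 := fun z hz =>
    hint.mul_continuousOn (((continuousOn_const.mul (P1_cont hz _))).mul (by fun_prop))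
  have hmain := intervalIntegral.hasDerivAt_integral_of_dominated_loc_of_deriv_le
    (μ := volume) (a := 0) (b := 1) (F := F) (F' := F') (x₀ := x)
    (s := Metric.closedBall x ε) (bound := fun r => r ^ (α - 1) * (‖(β:ℂ) - 1‖ * M * 1))
    (Metric.closedBall_mem_nhds x hε0)
    (by
      filter_upwards [hopen.mem_nhds hx] with z hz
      exact (intervalIntegrable_iff.1 (hF z hz)).aestronglyMeasurable)
    (hF x hx)
    (intervalIntegrable_iff.1 (hF' x hx)).aestronglyMeasurable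
    (by
      refine Filter.Eventually.of_forall fun r hr z hz => ?_
      rw [Set.uIoc_of_le zero_le_one] at hr
      have h1 := hM r ⟨hr.1.le, hr.2⟩ z hz
      have h2 : ‖(r:ℂ) ^ ((α:ℂ) - 1)‖ = r ^ (α - 1) := by
        rw [Complex.norm_cpow_eq_rpow_re_of_pos hr.1]
        congr 1
      have h3 : ‖-(r:ℂ)‖ ≤ 1 := by
        rw [norm_neg, Complex.norm_real, Real.norm_eq_abs, abs_of_pos hr.1]
        exact hr.2
      change ‖(r:ℂ) ^ ((α:ℂ) - 1) * (((β:ℂ) - 1) * (1 - (r:ℂ) * z) ^ ((β:ℂ) - 1 - 1) * (-(r:ℂ)))‖ ≤ _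
      rw [norm_mul, norm_mul, norm_mul, h2]
      have h4 : 0 ≤ r ^ (α - 1) := Real.rpow_nonneg hr.1.le _
      refine mul_le_mul_of_nonneg_left ?_ h4
      refine mul_le_mul (mul_le_mul_of_nonneg_left h1 (norm_nonneg _)) h3 (norm_nonneg _) ?_
      exact mul_nonneg (norm_nonneg _) ((norm_nonneg _).trans h1))
    ((intervalIntegral.intervalIntegrable_rpow' (by linarith)).mul_const _)
    (by
      refine Filter.Eventually.of_forall fun r hr z hz => ?_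
      rw [Set.uIoc_of_le zero_le_one] at hr
      have h1 := P1_slit (hε hz) hr.1.le hr.2
      have h2 : HasDerivAt (fun z : ℂ => 1 - (r:ℂ) * z) (-(r:ℂ)) z := by
        have h3 := ((hasDerivAt_id z).const_mul (r:ℂ)).const_sub 1
        rwa [mul_one] at h3
      have h4 := (h2.cpow_const (c := (β:ℂ) - 1) h1).const_mul ((r:ℂ) ^ ((α:ℂ) - 1))
      exact h4)
  refine ⟨∫ r in (0:ℝ)..1, F' x r, hmain.2, ?_⟩
  have hFTC : ∫ r in (0:ℝ)..1, ((α:ℂ) * F x r + x * F' x r) =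
      (fun r : ℝ => (r:ℂ) ^ (α:ℂ) * (1 - (r:ℂ) * x) ^ ((β:ℂ) - 1)) 1 -
      (fun r : ℝ => (r:ℂ) ^ (α:ℂ) * (1 - (r:ℂ) * x) ^ ((β:ℂ) - 1)) 0 := by
    refine intervalIntegral.integral_eq_sub_of_hasDerivAt_of_le
      (f := fun r : ℝ => (r:ℂ) ^ (α:ℂ) * (1 - (r:ℂ) * x) ^ ((β:ℂ) - 1))
      (f' := fun r : ℝ => (α:ℂ) * F x r + x * F' x r) zero_le_one ?_ ?_ ?_
    · have h1 : Continuous fun r : ℝ => (r:ℂ) ^ (α:ℂ) :=
        Complex.continuous_ofReal_cpow_const (by rw [Complex.ofReal_re]; exact hα)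
      have h2 := P1_cont hx ((β:ℂ) - 1)
      rw [Set.uIcc_of_le zero_le_one] at h2
      exact h1.continuousOn.mul h2
    · intro r hr
      have h1 := P1_slit hx hr.1.le hr.2.le
      have hr0 : (r:ℂ) ∈ slitPlane := Complex.ofReal_mem_slitPlane.2 hr.1
      have hr1 : (r:ℂ) ≠ 0 := Complex.ofReal_ne_zero.2 hr.1.ne'
      have h2 : HasDerivAt (fun w : ℂ => 1 - w * x) (-x) (r:ℂ) := by
        have h3 := ((hasDerivAt_id (r:ℂ)).mul_const x).const_sub 1
        rwa [one_mul] at h3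
      have h3 := h2.cpow_const (c := (β:ℂ) - 1) h1
      have h4 := (hasDerivAt_id (r:ℂ)).cpow_const (c := (α:ℂ)) hr0
      have h5 := (h4.mul h3).comp_ofReal
      refine h5.congr_deriv ?_
      have h6 : (r:ℂ) ^ (α:ℂ) = (r:ℂ) ^ ((α:ℂ) - 1) * r := by
        rw [Complex.cpow_sub _ _ hr1, Complex.cpow_one]
        field_simp
      change _ = (α:ℂ) * ((r:ℂ) ^ ((α:ℂ) - 1) * (1 - (r:ℂ) * x) ^ ((β:ℂ) - 1)) + x *
        ((r:ℂ) ^ ((α:ℂ) - 1) * (((β:ℂ) - 1) * (1 - (r:ℂ) * x) ^ ((β:ℂ) - 1 - 1) * (-(r:ℂ))))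
      simp only [id]
      rw [h6]
      ring
    · exact ((hF x hx).const_mul _).add ((hF' x hx).const_mul _)
  have hsplit : ∫ r in (0:ℝ)..1, ((α:ℂ) * F x r + x * F' x r) =
      (α:ℂ) * gg α β x + x * ∫ r in (0:ℝ)..1, F' x r := by
    rw [intervalIntegral.integral_add ((hF x hx).const_mul _) ((hF' x hx).const_mul _),
      intervalIntegral.integral_const_mul, intervalIntegral.integral_const_mul]
    rfl
  rw [← hsplit, hFTC]
  have h0 : (α:ℂ) ≠ 0 := Complex.ofReal_ne_zero.2 hα.ne'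
  simp only [Complex.ofReal_one, Complex.ofReal_zero, Complex.one_cpow, one_mul,
    Complex.zero_cpow h0, zero_mul, sub_zero]

theorem gg_diff {α β : ℝ} (hα : 0 < α) : DifferentiableOn ℂ (gg α β) D0 := fun x hx => by
  obtain ⟨d, hd, -⟩ := gg_hasDerivAt (β := β) hα hx
  exact hd.differentiableAt.differentiableWithinAt

/-- derivative of the incomplete Beta integral -/
theorem F_hasDerivAt {α β : ℝ} (hα : 0 < α) {x : ℂ} (hx : x ∈ Om) :
    HasDerivAt (fun x => x ^ (α:ℂ) * gg α β x) (x ^ ((α:ℂ) - 1) * (1 - x) ^ ((β:ℂ) - 1)) x := by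
  obtain ⟨d, hd, he⟩ := gg_hasDerivAt (β := β) hα (show x ∈ D0 from hx.2)
  have hx0 : x ≠ 0 := slitPlane_ne_zero hx.1
  have h1 := (hasDerivAt_id x).cpow_const (c := (α:ℂ)) hx.1
  have h2 := h1.mul hd
  refine h2.congr_deriv ?_
  rw [← he]
  have h3 : x ^ (α:ℂ) = x ^ ((α:ℂ) - 1) * x := by
    rw [Complex.cpow_sub _ _ hx0, Complex.cpow_one]; field_simp
  simp only [id]
  rw [h3]; ring

private theorem P3_open : IsOpen Om := by
  have : Om = slitPlane ∩ D0 := rfl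
  rw [this]
  exact isOpen_slitPlane.inter isOpen_D0

private theorem P3_half : (1 / 2 : ℂ) ∈ Om := by
  constructor
  · left
    norm_num
  · left
    norm_num

private theorem P3_star : StarConvex ℝ (1 / 2 : ℂ) Om := by
  have h1 : StarConvex ℝ ((1 / 2 : ℝ) : ℂ) slitPlane :=
    starConvex_ofReal_slitPlane (by norm_num)
  have h2 : ((1 / 2 : ℝ) : ℂ) = 1 / 2 := by push_cast; ring
  rw [h2] at h1
  intro y hy a b ha hb hab
  refine ⟨h1 hy.1 ha hb hab, ?_⟩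
  have h3 := h1 hy.2 ha hb hab
  have h4 : 1 - (a • (1 / 2 : ℂ) + b • y) = a • (1 / 2 : ℂ) + b • (1 - y) := by
    have h5 : (1 : ℂ) = a + b := by
      rw [← ofReal_add, hab, ofReal_one]
    simp only [real_smul]
    linear_combination h5
  rw [h4]
  exact h3

private theorem P3_symm {x : ℂ} (hx : x ∈ Om) : 1 - x ∈ Om :=
  ⟨hx.2, by rw [sub_sub_cancel]; exact hx.1⟩

private theorem P3_deriv {α β : ℝ} (hα : 0 < α) (hβ : 0 < β) {x : ℂ} (hx : x ∈ Om) :
    HasDerivAt (fun x => x ^ (α:ℂ) * gg α β x + (1 - x) ^ (β:ℂ) * gg β α (1 - x)) 0 x := by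
  have h1 := F_hasDerivAt (β := β) hα hx
  have h2 := F_hasDerivAt (β := α) hβ (P3_symm hx)
  have h3 : HasDerivAt (fun x : ℂ => 1 - x) (-1) x := by
    simpa using (hasDerivAt_id x).const_sub 1
  have h4 := h2.comp x h3
  refine (h1.add h4).congr_deriv ?_
  rw [sub_sub_cancel]
  ring

/-- the value at `1/2` as an integral -/
private theorem P3_val (α β : ℝ) : (1 / 2 : ℂ) ^ (α:ℂ) * gg α β (1 / 2) =
    ∫ t in (0:ℝ)..(1 / 2), (t:ℂ) ^ ((α:ℂ) - 1) * (1 - (t:ℂ)) ^ ((β:ℂ) - 1) := by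
  have h1 := intervalIntegral.smul_integral_comp_mul_left (a := 0) (b := 1)
    (f := fun t : ℝ => (t:ℂ) ^ ((α:ℂ) - 1) * (1 - (t:ℂ)) ^ ((β:ℂ) - 1)) (1 / 2 : ℝ)
  rw [mul_zero, mul_one] at h1
  rw [← h1, gg, real_smul, ← intervalIntegral.integral_const_mul,
    ← intervalIntegral.integral_const_mul]
  refine intervalIntegral.integral_congr fun r hr => ?_
  rw [Set.uIcc_of_le zero_le_one] at hr
  have h2 : (((1 / 2 : ℝ) * r : ℝ) : ℂ) ^ ((α:ℂ) - 1) =
      (1 / 2 : ℂ) ^ ((α:ℂ) - 1) * (r:ℂ) ^ ((α:ℂ) - 1) := by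
    have h3 := mul_cpow_ofReal_nonneg (a := 1 / 2) (b := r) (by norm_num) hr.1 ((α:ℂ) - 1)
    rw [ofReal_mul, h3]
    push_cast
    ring
  have h4 : (1 / 2 : ℂ) ^ (α:ℂ) = (1 / 2 : ℂ) ^ ((α:ℂ) - 1) * (1 / 2) := by
    rw [Complex.cpow_sub _ _ (by norm_num), Complex.cpow_one]
    field_simp
  rw [h2, h4]
  have h5 : (1 : ℂ) - (((1 / 2 : ℝ) * r : ℝ) : ℂ) = 1 - (r:ℂ) * (1 / 2) := by
    push_cast
    ring
  rw [h5]
  push_cast
  ring

/-- PIECE P3 -/
theorem gg_add {α β : ℝ} (hα : 0 < α) (hβ : 0 < β) {x : ℂ} (hx : x ∈ Om) :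
    x ^ (α:ℂ) * gg α β x + (1 - x) ^ (β:ℂ) * gg β α (1 - x) = betaIntegral α β := by
  have hd : DifferentiableOn ℂ
      (fun x => x ^ (α:ℂ) * gg α β x + (1 - x) ^ (β:ℂ) * gg β α (1 - x)) Om :=
    fun y hy => (P3_deriv hα hβ hy).differentiableAt.differentiableWithinAt
  have hpc : IsPreconnected Om :=
    (P3_star.isPathConnected P3_half).isConnected.isPreconnected
  have h1 := P3_open.is_const_of_deriv_eq_zero hpc hd
    (fun y hy => (P3_deriv hα hβ hy).deriv) hx P3_half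
  rw [h1]
  have h2 : (1 : ℂ) - 1 / 2 = 1 / 2 := by norm_num
  rw [h2, P3_val α β, P3_val β α]
  have h3 : ∫ t in (0:ℝ)..(1 / 2), (t:ℂ) ^ ((β:ℂ) - 1) * (1 - (t:ℂ)) ^ ((α:ℂ) - 1) =
      ∫ t in (1 / 2 : ℝ)..1, (t:ℂ) ^ ((α:ℂ) - 1) * (1 - (t:ℂ)) ^ ((β:ℂ) - 1) := by
    have h4 := intervalIntegral.integral_comp_sub_left (a := 0) (b := 1 / 2)
      (fun t : ℝ => (t:ℂ) ^ ((α:ℂ) - 1) * (1 - (t:ℂ)) ^ ((β:ℂ) - 1)) 1
    have h5 : (1 : ℝ) - 1 / 2 = 1 / 2 := by norm_num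
    rw [h5, sub_zero] at h4
    rw [← h4]
    refine intervalIntegral.integral_congr fun r _ => ?_
    have h6 : (1 : ℂ) - ((1 - r : ℝ) : ℂ) = r := by
      push_cast
      ring
    rw [h6]
    push_cast
    ring
  rw [h3]
  have hi := betaIntegral_convergent (u := (α:ℂ)) (v := (β:ℂ)) (by simpa using hα)
    (by simpa using hβ)
  have hi1 : IntervalIntegrable (fun x : ℝ =>
      (x : ℂ) ^ ((α:ℂ) - 1) * (1 - (x : ℂ)) ^ ((β:ℂ) - 1)) MeasureTheory.volume 0 (1 / 2) := by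
    refine hi.mono_set ?_
    rw [Set.uIcc_of_le (by norm_num), Set.uIcc_of_le zero_le_one]
    exact Set.Icc_subset_Icc le_rfl (by norm_num)
  have hi2 : IntervalIntegrable (fun x : ℝ =>
      (x : ℂ) ^ ((α:ℂ) - 1) * (1 - (x : ℂ)) ^ ((β:ℂ) - 1)) MeasureTheory.volume (1 / 2) 1 := by
    refine hi.mono_set ?_
    rw [Set.uIcc_of_le (by norm_num), Set.uIcc_of_le zero_le_one]
    exact Set.Icc_subset_Icc (by norm_num) le_rfl
  rw [intervalIntegral.integral_add_adjacent_intervals hi1 hi2]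
  rfl

theorem desc_eq (b : ℂ) (n : ℕ) : (descPochhammer ℤ n).smeval b = ∏ i ∈ range n, (b - i) := by
  induction n with
  | zero => simp
  | succ n ih =>
    rw [descPochhammer_succ_right, Polynomial.smeval_mul, ih, prod_range_succ]
    congr 1
    simp [Polynomial.smeval_sub, Polynomial.smeval_natCast]

theorem cc_eq (b : ℝ) (n : ℕ) : (cc b n : ℂ) = (-1) ^ n * Ring.choose (b : ℂ) n := by
  have h1 := Ring.descPochhammer_eq_factorial_smul_choose (b : ℂ) n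
  rw [desc_eq, nsmul_eq_mul] at h1
  have h2 : ((n.factorial : ℕ) : ℂ) ≠ 0 := by exact_mod_cast n.factorial_ne_zero
  have h3 : Ring.choose (b : ℂ) n = (∏ i ∈ range n, ((b : ℂ) - i)) / (n.factorial : ℂ) := by
    rw [eq_div_iff h2, h1]; ring
  rw [h3]
  unfold cc
  push_cast
  rw [prod_div_distrib]
  have h4 : ∏ i ∈ range n, ((i : ℂ) + 1) = (n.factorial : ℂ) := by
    rw [← Finset.prod_range_add_one_eq_factorial]; push_cast; rfl
  rw [h4]
  have h5 : ∏ i ∈ range n, ((i : ℂ) - b) = (-1) ^ n * ∏ i ∈ range n, ((b : ℂ) - i) := by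
    rw [← card_range n, ← prod_const, card_range, ← prod_mul_distrib]
    exact prod_congr rfl fun i _ => by ring
  rw [h5]; ring

theorem cc_series (b : ℝ) {y : ℂ} (hy : ‖y‖ < 1) :
    HasSum (fun p : ℕ => (cc b p : ℂ) * y ^ p) ((1 - y) ^ (b:ℂ)) := by
  have h1 := (Complex.one_add_cpow_hasFPowerSeriesOnBall_zero (a := (b : ℂ))).hasSum
    (y := -y) (by simpa [Metric.mem_eball, edist_zero_right, enorm_eq_nnnorm, ← NNReal.coe_lt_one] using hy)
  simp only [zero_add] at h1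
  rw [← sub_eq_add_neg] at h1
  have h2 : (fun p : ℕ => (cc b p : ℂ) * y ^ p) = fun n => (binomialSeries ℂ (b : ℂ) n) fun _ => -y := by
    funext n
    rw [binomialSeries_apply, cc_eq, List.ofFn_const, List.prod_replicate, smul_eq_mul]
    rw [show (-y) ^ n = (-1) ^ n * y ^ n by rw [← mul_pow]; ring]
    ring
  rw [h2]
  exact h1


theorem gam_hasSum {α β : ℝ} (hab : ∀ p : ℕ, α + β - 1 ≠ p) {y : ℂ} (hy : ‖y‖ < 1) :
    HasSum (fun p : ℕ => (cc (β - 1) p : ℂ) / ((α:ℂ) + β - 1 - p) * y ^ p) (gam α β y) := by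
  have h1 : Summable fun p : ℕ => ‖(cc (β - 1) p : ℂ) * y ^ p‖ :=
    (cc_series (β - 1) hy).summable.norm
  have h2 : Summable fun p : ℕ => (cc (β - 1) p : ℂ) / ((α:ℂ) + β - 1 - p) * y ^ p := by
    refine Summable.of_norm_bounded_eventually_nat h1 ?_
    obtain ⟨N, hN⟩ := exists_nat_ge (|α + β - 1| + 1)
    filter_upwards [Filter.eventually_ge_atTop N] with p hp
    have h3 : (1 : ℝ) ≤ ‖(α:ℂ) + β - 1 - p‖ := by
      have h4 : ((α:ℂ) + β - 1 - p) = ((α + β - 1 - p : ℝ) : ℂ) := by push_cast; ring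
      rw [h4, Complex.norm_real, Real.norm_eq_abs]
      have h5 : (N : ℝ) ≤ p := by exact_mod_cast hp
      have h6 := le_abs_self (α + β - 1)
      rw [abs_of_nonpos (by linarith)]
      linarith
    rw [norm_mul, norm_mul, norm_div]
    refine mul_le_mul_of_nonneg_right ?_ (norm_nonneg _)
    exact div_le_self (norm_nonneg _) h3
  exact h2.hasSum

/-- the coefficients -/
noncomputable def P4b_a (α β : ℝ) (p : ℕ) : ℂ := (cc (β - 1) p : ℂ) / ((α:ℂ) + β - 1 - p)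

theorem P4b_main {α β : ℝ} (hab : ∀ p : ℕ, α + β - 1 ≠ p) {y : ℂ} (hy : ‖y‖ < 1) :
    DifferentiableAt ℂ (gam α β) y ∧
      HasSum (fun p : ℕ => P4b_a α β p * (p * y ^ (p - 1))) (deriv (gam α β) y) := by
  obtain ⟨r, hr1, hr2⟩ := exists_between hy
  have hr0 : 0 < r := lt_of_le_of_lt (norm_nonneg _) hr1
  have hrn : ‖(r : ℂ)‖ = r := by
    rw [Complex.norm_real, Real.norm_eq_abs, abs_of_pos hr0]
  have hu : Summable fun p : ℕ => ‖P4b_a α β p * (r : ℂ) ^ p‖ :=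
    (gam_hasSum hab (by rw [hrn]; exact hr2)).summable.norm
  have hF : ∀ p : ℕ, DifferentiableOn ℂ (fun w : ℂ => P4b_a α β p * w ^ p)
      (Metric.ball 0 r) := fun p => by fun_prop
  have hle : ∀ (p : ℕ) (w : ℂ), w ∈ Metric.ball (0 : ℂ) r →
      ‖P4b_a α β p * w ^ p‖ ≤ ‖P4b_a α β p * (r : ℂ) ^ p‖ := by
    intro p w hw
    rw [norm_mul, norm_mul, norm_pow, norm_pow, hrn]
    rw [mem_ball_zero_iff] at hw
    exact mul_le_mul_of_nonneg_left (pow_le_pow_left₀ (norm_nonneg _) hw.le _) (norm_nonneg _)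
  have hyU : y ∈ Metric.ball (0 : ℂ) r := by
    rw [mem_ball_zero_iff]
    exact hr1
  have h1 := Complex.differentiableOn_tsum_of_summable_norm hu hF Metric.isOpen_ball hle
  have h2 := Complex.hasSum_deriv_of_summable_norm hu hF Metric.isOpen_ball hle hyU
  refine ⟨h1.differentiableAt (Metric.isOpen_ball.mem_nhds hyU), ?_⟩
  have h3 : (fun p : ℕ => deriv (fun w : ℂ => P4b_a α β p * w ^ p) y) =
      fun p : ℕ => P4b_a α β p * (p * y ^ (p - 1)) := by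
    funext p
    exact ((hasDerivAt_pow p y).const_mul _).deriv
  rw [h3] at h2
  exact h2

theorem gam_diff {α β : ℝ} (hab : ∀ p : ℕ, α + β - 1 ≠ p) :
    DifferentiableOn ℂ (gam α β) (Metric.ball 0 1) := fun y hy =>
  (P4b_main hab (mem_ball_zero_iff.1 hy)).1.differentiableWithinAt

/-- the first differential equation at infinity: `(α+β-1) gam y - y gam' y = (1-y)^(β-1)` (termwise derivative) -/
theorem gam_deriv {α β : ℝ} (hab : ∀ p : ℕ, α + β - 1 ≠ p) {y : ℂ} (hy : ‖y‖ < 1) :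
    ((α:ℂ) + β - 1) * gam α β y - y * deriv (gam α β) y = (1 - y) ^ ((β:ℂ) - 1) := by
  have h1 := (gam_hasSum hab hy).mul_left ((α:ℂ) + β - 1)
  have h2 := (P4b_main hab hy).2.mul_left y
  have h3 := h1.sub h2
  have h4 := cc_series (β - 1) hy
  rw [Complex.ofReal_sub, Complex.ofReal_one] at h4
  refine h3.unique (h4.congr_fun ?_)
  intro p
  have h5 : ((α:ℂ) + β - 1 - p) ≠ 0 := by
    intro h6
    apply hab p
    have h7 : ((α + β - 1 : ℝ) : ℂ) = ((p : ℝ) : ℂ) := by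
      push_cast
      linear_combination h6
    exact Complex.ofReal_injective h7
  have h6 : y * (P4b_a α β p * (p * y ^ (p - 1))) = P4b_a α β p * (p * y ^ p) := by
    rcases Nat.eq_zero_or_pos p with rfl | hp
    · simp
    · have h7 : y ^ p = y ^ (p - 1) * y := by
        rw [← pow_succ, Nat.sub_add_cancel hp]
      rw [h7]
      ring
  rw [h6]
  unfold P4b_a
  field_simp

/-- from `gam_deriv` and the chain rule -/
theorem Gh_hasDerivAt {α β : ℝ} (hab : ∀ p : ℕ, α + β - 1 ≠ p) {x : ℂ} (hx : x ∈ slitPlane)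
    (h1 : 1 < ‖x‖) :
    HasDerivAt (Gh α β) (x ^ ((α:ℂ) + β - 2) * (1 - x⁻¹) ^ ((β:ℂ) - 1)) x := by
  have hx0 : x ≠ 0 := slitPlane_ne_zero hx
  have hy : ‖x⁻¹‖ < 1 := by
    rw [norm_inv]
    exact inv_lt_one_of_one_lt₀ h1
  have h2 := (hasDerivAt_id x).cpow_const (c := (α:ℂ) + β - 1) hx
  have h3 : HasDerivAt (fun x : ℂ => gam α β x⁻¹) (deriv (gam α β) x⁻¹ * (-(x ^ 2)⁻¹)) x :=
    (P4b_main hab hy).1.hasDerivAt.comp x (hasDerivAt_inv hx0)
  have h4 := h2.mul h3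
  refine h4.congr_deriv ?_
  rw [← gam_deriv hab hy]
  have h5 : x ^ ((α:ℂ) + β - 1 - 1) = x ^ ((α:ℂ) + β - 2) := by
    congr 1
    ring
  have h6 : x ^ ((α:ℂ) + β - 1) = x ^ ((α:ℂ) + β - 2) * x := by
    have h7 : ((α:ℂ) + β - 1) = ((α:ℂ) + β - 2) + 1 := by ring
    rw [h7, Complex.cpow_add _ _ hx0, Complex.cpow_one]
  simp only [id]
  rw [h5, h6]
  field_simp
  ring

private theorem P5_aux {x w : ℂ} (hx : x ≠ 0) (h1 : 1 - x ≠ 0) (h2 : 1 - x⁻¹ ≠ 0) (b : ℂ)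
    (hw : Complex.exp w = -1) (hm : -Real.pi < (log x + log (1 - x⁻¹) + w).im)
    (hm' : (log x + log (1 - x⁻¹) + w).im ≤ Real.pi) :
    (1 - x) ^ b = exp (w * b) * (x ^ b * (1 - x⁻¹) ^ b) := by
  have h3 : log (1 - x) = log x + log (1 - x⁻¹) + w := by
    rw [← Complex.log_exp hm hm', Complex.exp_add, Complex.exp_add, Complex.exp_log hx,
      Complex.exp_log h2, hw]
    congr 1
    field_simp
    ring
  rw [Complex.cpow_def_of_ne_zero hx, Complex.cpow_def_of_ne_zero h1,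
    Complex.cpow_def_of_ne_zero h2, h3, ← Complex.exp_add, ← Complex.exp_add]
  congr 1
  ring

private theorem P5_inv_im (x : ℂ) (hx : x ≠ 0) :
    ∃ c : ℝ, 0 < c ∧ (1 - x⁻¹).im = c * x.im := by
  refine ⟨(Complex.normSq x)⁻¹, inv_pos.2 (Complex.normSq_pos.2 hx), ?_⟩
  rw [Complex.sub_im, Complex.inv_im, Complex.one_im]
  ring

theorem one_sub_cpow_pos {x : ℂ} (h : 0 < x.im) (b : ℂ) :
    (1 - x) ^ b = exp (-(Real.pi * I * b)) * (x ^ b * (1 - x⁻¹) ^ b) := by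
  have hx : x ≠ 0 := by
    rintro rfl
    simp at h
  have h1 : 1 - x ≠ 0 := by
    intro h0
    have h2 := congrArg Complex.im h0
    rw [Complex.sub_im, Complex.one_im, Complex.zero_im] at h2
    linarith
  obtain ⟨c, hc, he⟩ := P5_inv_im x hx
  have him : 0 < (1 - x⁻¹).im := by rw [he]; positivity
  have h2 : 1 - x⁻¹ ≠ 0 := by
    intro h0
    rw [h0] at him
    simp at him
  have e1 : 0 < arg x := lt_of_le_of_ne (arg_nonneg_iff.2 h.le) fun h0 =>
    h.ne' (arg_eq_zero_iff.1 h0.symm).2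
  have e2 := arg_le_pi x
  have e3 : 0 < arg (1 - x⁻¹) := lt_of_le_of_ne (arg_nonneg_iff.2 him.le) fun h0 =>
    him.ne' (arg_eq_zero_iff.1 h0.symm).2
  have e4 := arg_le_pi (1 - x⁻¹)
  have e5 : (log x + log (1 - x⁻¹) + -(Real.pi * I)).im = arg x + arg (1 - x⁻¹) - Real.pi := by
    simp [Complex.log_im]
    ring
  have h3 := P5_aux hx h1 h2 b (w := -(Real.pi * I))
    (by rw [Complex.exp_neg, Complex.exp_pi_mul_I]; norm_num)
    (by rw [e5]; linarith) (by rw [e5]; linarith)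
  rw [h3]
  congr 2
  ring

theorem one_sub_cpow_neg {x : ℂ} (h : x.im < 0) (b : ℂ) :
    (1 - x) ^ b = exp (Real.pi * I * b) * (x ^ b * (1 - x⁻¹) ^ b) := by
  have hx : x ≠ 0 := by
    rintro rfl
    simp at h
  have h1 : 1 - x ≠ 0 := by
    intro h0
    have h2 := congrArg Complex.im h0
    rw [Complex.sub_im, Complex.one_im, Complex.zero_im] at h2
    linarith
  obtain ⟨c, hc, he⟩ := P5_inv_im x hx
  have him : (1 - x⁻¹).im < 0 := by rw [he]; exact mul_neg_of_pos_of_neg hc h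
  have h2 : 1 - x⁻¹ ≠ 0 := by
    intro h0
    rw [h0] at him
    simp at him
  have e1 : arg x < 0 := arg_neg_iff.2 h
  have e2 := neg_pi_lt_arg x
  have e3 : arg (1 - x⁻¹) < 0 := arg_neg_iff.2 him
  have e4 := neg_pi_lt_arg (1 - x⁻¹)
  have e5 : (log x + log (1 - x⁻¹) + Real.pi * I).im = arg x + arg (1 - x⁻¹) + Real.pi := by
    simp [Complex.log_im]
  exact P5_aux hx h1 h2 b (w := Real.pi * I) Complex.exp_pi_mul_I
    (by rw [e5]; linarith) (by rw [e5]; linarith)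

theorem P6_conn_up : IsPreconnected {x : ℂ | 0 < x.im ∧ 1 < ‖x‖} := by
  have hset : {x : ℂ | 0 < x.im ∧ 1 < ‖x‖} =
      Complex.exp '' {z : ℂ | 0 < z.re ∧ 0 < z.im ∧ z.im < Real.pi} := by
    ext x
    constructor
    · rintro ⟨h1, h2⟩
      have hx0 : x ≠ 0 := by
        rintro rfl
        simp at h1
      refine ⟨Complex.log x, ⟨?_, ?_, ?_⟩, Complex.exp_log hx0⟩
      · rw [Complex.log_re]
        exact Real.log_pos h2
      · rw [Complex.log_im]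
        have h3 : 0 ≤ x.arg := Complex.arg_nonneg_iff.2 h1.le
        refine lt_of_le_of_ne h3 fun h4 => ?_
        have := (Complex.arg_eq_zero_iff.1 h4.symm).2
        linarith
      · rw [Complex.log_im]
        exact Complex.arg_lt_pi_iff.2 (Or.inr h1.ne')
    · rintro ⟨z, ⟨h1, h2, h3⟩, rfl⟩
      refine ⟨?_, ?_⟩
      · rw [Complex.exp_im]
        exact mul_pos (Real.exp_pos _) (Real.sin_pos_of_pos_of_lt_pi h2 h3)
      · rw [Complex.norm_exp]
        exact Real.one_lt_exp_iff.2 h1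
  rw [hset]
  refine IsPreconnected.image ?_ _ Complex.continuous_exp.continuousOn
  apply Convex.isPreconnected
  have hc : {z : ℂ | 0 < z.re ∧ 0 < z.im ∧ z.im < Real.pi} =
      {z : ℂ | 0 < z.re} ∩ ({z : ℂ | 0 < z.im} ∩ {z : ℂ | z.im < Real.pi}) := rfl
  rw [hc]
  exact (convex_halfSpace_re_gt 0).inter ((convex_halfSpace_im_gt 0).inter
    (convex_halfSpace_im_lt Real.pi))

theorem P6_conn_down : IsPreconnected {x : ℂ | x.im < 0 ∧ 1 < ‖x‖} := by
  have hset : {x : ℂ | x.im < 0 ∧ 1 < ‖x‖} =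
      (fun x : ℂ => -x) '' {x : ℂ | 0 < x.im ∧ 1 < ‖x‖} := by
    ext x
    constructor
    · rintro ⟨h1, h2⟩
      exact ⟨-x, ⟨by rw [neg_im]; linarith, by rw [norm_neg]; exact h2⟩, neg_neg x⟩
    · rintro ⟨z, ⟨h1, h2⟩, rfl⟩
      exact ⟨by rw [neg_im]; linarith, by rw [norm_neg]; exact h2⟩
  rw [hset]
  exact P6_conn_up.image _ continuous_neg.continuousOn

theorem P6_open_up : IsOpen {x : ℂ | 0 < x.im ∧ 1 < ‖x‖} :=
  (isOpen_lt continuous_const Complex.continuous_im).inter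
    (isOpen_lt continuous_const continuous_norm)

theorem P6_open_down : IsOpen {x : ℂ | x.im < 0 ∧ 1 < ‖x‖} :=
  (isOpen_lt Complex.continuous_im continuous_const).inter
    (isOpen_lt continuous_const continuous_norm)

theorem P6_slit {x : ℂ} (h : x.im ≠ 0) : x ∈ slitPlane ∧ x ∈ Om := by
  have h1 : x ∈ slitPlane := Or.inr h
  refine ⟨h1, h1, Or.inr ?_⟩
  rw [sub_im, one_im, zero_sub]
  exact neg_ne_zero.2 h

theorem P6_core {α β : ℝ} (hα : 0 < α) (hab : ∀ p : ℕ, α + β - 1 ≠ p) {U : Set ℂ}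
    (hU : IsOpen U) (hU' : IsPreconnected U) (him : ∀ x ∈ U, x.im ≠ 0) (hn : ∀ x ∈ U, 1 < ‖x‖)
    (c : ℂ) (hc : ∀ x ∈ U, (1 - x) ^ ((β:ℂ) - 1) = c * (x ^ ((β:ℂ) - 1) * (1 - x⁻¹) ^ ((β:ℂ) - 1)))
    (x₀ : ℂ) (hx₀ : x₀ ∈ U) :
    ∃ A : ℂ, ∀ x ∈ U, x ^ (α:ℂ) * gg α β x = A + c * Gh α β x := by
  have hd : ∀ x ∈ U, HasDerivAt (fun x => x ^ (α:ℂ) * gg α β x - c * Gh α β x) 0 x := by
    intro x hx
    obtain ⟨h1, h2⟩ := P6_slit (him x hx)
    have h3 := (F_hasDerivAt (β := β) hα h2).sub ((Gh_hasDerivAt hab h1 (hn x hx)).const_mul c)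
    refine h3.congr_deriv ?_
    have hx0 : x ≠ 0 := slitPlane_ne_zero h1
    rw [hc x hx]
    have h4 : x ^ ((α:ℂ) + β - 2) = x ^ ((α:ℂ) - 1) * x ^ ((β:ℂ) - 1) := by
      rw [← Complex.cpow_add _ _ hx0]
      congr 1
      ring
    rw [h4]
    ring
  refine ⟨x₀ ^ (α:ℂ) * gg α β x₀ - c * Gh α β x₀, fun x hx => ?_⟩
  have h5 := hU.is_const_of_deriv_eq_zero hU'
    (f := fun x => x ^ (α:ℂ) * gg α β x - c * Gh α β x)
    (fun y hy => (hd y hy).differentiableAt.differentiableWithinAt)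
    (fun y hy => (hd y hy).deriv) hx hx₀
  rw [← h5]
  ring

theorem inf_up {α β : ℝ} (hα : 0 < α) (hab : ∀ p : ℕ, α + β - 1 ≠ p) :
    ∃ A : ℂ, ∀ x : ℂ, 0 < x.im → 1 < ‖x‖ →
      x ^ (α:ℂ) * gg α β x = A + exp (-(Real.pi * I * ((β:ℂ) - 1))) * Gh α β x := by
  obtain ⟨A, hA⟩ := P6_core hα hab P6_open_up P6_conn_up (fun x hx => hx.1.ne') (fun x hx => hx.2)
    (exp (-(Real.pi * I * ((β:ℂ) - 1)))) (fun x hx => one_sub_cpow_pos hx.1 _) (2 * I)
    (by
      constructor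
      · simp
      · rw [norm_mul, Complex.norm_I, mul_one, Complex.norm_ofNat]
        norm_num)
  exact ⟨A, fun x h1 h2 => hA x ⟨h1, h2⟩⟩

theorem inf_down {α β : ℝ} (hα : 0 < α) (hab : ∀ p : ℕ, α + β - 1 ≠ p) :
    ∃ A : ℂ, ∀ x : ℂ, x.im < 0 → 1 < ‖x‖ →
      x ^ (α:ℂ) * gg α β x = A + exp (Real.pi * I * ((β:ℂ) - 1)) * Gh α β x := by
  obtain ⟨A, hA⟩ := P6_core hα hab P6_open_down P6_conn_down (fun x hx => hx.1.ne)
    (fun x hx => hx.2)
    (exp (Real.pi * I * ((β:ℂ) - 1))) (fun x hx => one_sub_cpow_neg hx.1 _) (-(2 * I))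
    (by
      constructor
      · simp
      · rw [norm_neg, norm_mul, Complex.norm_I, mul_one, Complex.norm_ofNat]
        norm_num)
  exact ⟨A, fun x h1 h2 => hA x ⟨h1, h2⟩⟩

/-- limits of powers at the negative real axis, from above -/
theorem P7a_up {p : ℂ} (hp : p.re < 0) (hp0 : p.im = 0) (c : ℂ) :
    Tendsto (fun x : ℂ => x ^ c) (𝓝[{z : ℂ | 0 < z.im}] p)
      (𝓝 (exp ((Real.log ‖p‖ + Real.pi * I) * c))) := by
  have h1 := (Complex.tendsto_log_nhdsWithin_im_nonneg_of_re_neg_of_im_zero hp hp0).mono_left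
    (nhdsWithin_mono p fun z (hz : 0 < z.im) => (le_of_lt hz : 0 ≤ z.im))
  have h2 := (Complex.continuous_exp.tendsto _).comp (h1.mul_const c)
  refine h2.congr' ?_
  filter_upwards [self_mem_nhdsWithin] with x hx
  have hx0 : x ≠ 0 := by
    rintro rfl
    exact lt_irrefl (0 : ℝ) (show (0 : ℝ) < (0 : ℂ).im from hx)
  rw [Complex.cpow_def_of_ne_zero hx0]
  rfl

/-- limits of powers at the negative real axis, from below -/
theorem P7a_down {p : ℂ} (hp : p.re < 0) (hp0 : p.im = 0) (c : ℂ) :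
    Tendsto (fun x : ℂ => x ^ c) (𝓝[{z : ℂ | z.im < 0}] p)
      (𝓝 (exp ((Real.log ‖p‖ - Real.pi * I) * c))) := by
  have h1 := Complex.tendsto_log_nhdsWithin_im_neg_of_re_neg_of_im_zero hp hp0
  have h2 := (Complex.continuous_exp.tendsto _).comp (h1.mul_const c)
  refine h2.congr' ?_
  filter_upwards [self_mem_nhdsWithin] with x hx
  have hx0 : x ≠ 0 := by
    rintro rfl
    exact lt_irrefl _ hx
  rw [Complex.cpow_def_of_ne_zero hx0]
  rfl

theorem P7a_neUp {p : ℂ} (hp0 : p.im = 0) : (𝓝[{z : ℂ | 0 < z.im}] p).NeBot := by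
  rw [← mem_closure_iff_nhdsWithin_neBot, Complex.closure_setOfPred_lt_im]
  exact hp0.symm.le

theorem P7a_neDown {p : ℂ} (hp0 : p.im = 0) : (𝓝[{z : ℂ | z.im < 0}] p).NeBot := by
  rw [← mem_closure_iff_nhdsWithin_neBot, Complex.closure_setOfPred_im_lt]
  exact hp0.le

theorem P7a_gg {α β : ℝ} (hα : 0 < α) {p : ℂ} (hp : p ∈ D0) : ContinuousAt (gg α β) p :=
  ((gg_diff (β := β) hα).differentiableAt (isOpen_D0.mem_nhds hp)).continuousAt

theorem P7a_gam {α β : ℝ} (hab : ∀ p : ℕ, α + β - 1 ≠ p) {p : ℂ} (hp : 1 < ‖p‖) :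
    ContinuousAt (fun x : ℂ => gam α β x⁻¹) p := by
  have hp0 : p ≠ 0 := by
    rintro rfl
    rw [norm_zero] at hp
    linarith
  have h1 : p⁻¹ ∈ Metric.ball (0 : ℂ) 1 := by
    rw [mem_ball_zero_iff, norm_inv]
    exact inv_lt_one_of_one_lt₀ hp
  have h2 : ContinuousAt (gam α β) p⁻¹ :=
    ((gam_diff hab).differentiableAt (Metric.isOpen_ball.mem_nhds h1)).continuousAt
  exact ContinuousAt.comp (f := fun x : ℂ => x⁻¹) h2 (continuousAt_inv₀ hp0)

theorem P7a_norm {p : ℂ} (hp : 1 < ‖p‖) (s : Set ℂ) : ∀ᶠ x in 𝓝[s] p, 1 < ‖x‖ :=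
  (continuous_norm.tendsto p).eventually_const_lt hp |>.filter_mono nhdsWithin_le_nhds

theorem cross_neg {α β : ℝ} (hα : 0 < α) (hab : ∀ p : ℕ, α + β - 1 ≠ p) {A A' : ℂ}
    (h : ∀ x : ℂ, 0 < x.im → 1 < ‖x‖ →
      x ^ (α:ℂ) * gg α β x = A + exp (-(Real.pi * I * ((β:ℂ) - 1))) * Gh α β x)
    (h' : ∀ x : ℂ, x.im < 0 → 1 < ‖x‖ →
      x ^ (α:ℂ) * gg α β x = A' + exp (Real.pi * I * ((β:ℂ) - 1)) * Gh α β x) :
    A' = exp (-(2 * Real.pi * I * α)) * A := by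
  have hp : (-2 : ℂ).re < 0 := by norm_num
  have hp0 : (-2 : ℂ).im = 0 := by norm_num
  have hn : ‖(-2 : ℂ)‖ = 2 := by norm_num
  have hn1 : 1 < ‖(-2 : ℂ)‖ := by rw [hn]; norm_num
  have hD : (-2 : ℂ) ∈ D0 := by
    change 1 - (-2 : ℂ) ∈ slitPlane
    left
    norm_num
  have hgg := P7a_gg (β := β) hα hD
  have hgam := P7a_gam hab hn1
  have e1 : exp ((Real.log ‖(-2 : ℂ)‖ + Real.pi * I) * (α : ℂ)) * gg α β (-2) -
      exp (-(Real.pi * I * ((β:ℂ) - 1))) *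
        (exp ((Real.log ‖(-2 : ℂ)‖ + Real.pi * I) * ((α : ℂ) + β - 1)) * gam α β (-2 : ℂ)⁻¹) = A := by
    have hne := P7a_neUp hp0
    have t1 := (P7a_up hp hp0 (α : ℂ)).mul (hgg.tendsto.mono_left nhdsWithin_le_nhds)
    have t2 := ((P7a_up hp hp0 ((α : ℂ) + β - 1)).mul
      (hgam.tendsto.mono_left nhdsWithin_le_nhds)).const_mul (exp (-(Real.pi * I * ((β:ℂ) - 1))))
    have t3 := t1.sub t2
    refine tendsto_nhds_unique t3 (tendsto_const_nhds.congr' ?_)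
    filter_upwards [self_mem_nhdsWithin, P7a_norm hn1 _] with x hx hx1
    rw [h x hx hx1, Gh]
    ring
  have e2 : exp ((Real.log ‖(-2 : ℂ)‖ - Real.pi * I) * (α : ℂ)) * gg α β (-2) -
      exp (Real.pi * I * ((β:ℂ) - 1)) *
        (exp ((Real.log ‖(-2 : ℂ)‖ - Real.pi * I) * ((α : ℂ) + β - 1)) * gam α β (-2 : ℂ)⁻¹) = A' := by
    have hne := P7a_neDown hp0
    have t1 := (P7a_down hp hp0 (α : ℂ)).mul (hgg.tendsto.mono_left nhdsWithin_le_nhds)
    have t2 := ((P7a_down hp hp0 ((α : ℂ) + β - 1)).mul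
      (hgam.tendsto.mono_left nhdsWithin_le_nhds)).const_mul (exp (Real.pi * I * ((β:ℂ) - 1)))
    have t3 := t1.sub t2
    refine tendsto_nhds_unique t3 (tendsto_const_nhds.congr' ?_)
    filter_upwards [self_mem_nhdsWithin, P7a_norm hn1 _] with x hx hx1
    rw [h' x hx hx1, Gh]
    ring
  have k1 : exp ((Real.log ‖(-2 : ℂ)‖ - Real.pi * I) * (α : ℂ)) =
      exp (-(2 * Real.pi * I * α)) * exp ((Real.log ‖(-2 : ℂ)‖ + Real.pi * I) * (α : ℂ)) := by
    rw [← Complex.exp_add]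
    congr 1
    ring
  have k2 : exp (Real.pi * I * ((β:ℂ) - 1)) *
      exp ((Real.log ‖(-2 : ℂ)‖ - Real.pi * I) * ((α : ℂ) + β - 1)) =
      exp (-(2 * Real.pi * I * α)) * (exp (-(Real.pi * I * ((β:ℂ) - 1))) *
        exp ((Real.log ‖(-2 : ℂ)‖ + Real.pi * I) * ((α : ℂ) + β - 1))) := by
    rw [← Complex.exp_add, ← Complex.exp_add, ← Complex.exp_add]
    congr 1
    ring
  rw [← e1, ← e2]
  linear_combination (gg α β (-2)) * k1 - (gam α β (-2 : ℂ)⁻¹) * k2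

theorem P7b_one_sub_up (p : ℂ) :
    Tendsto (fun x : ℂ => 1 - x) (𝓝[{z : ℂ | 0 < z.im}] p) (𝓝[{z : ℂ | z.im < 0}] (1 - p)) := by
  refine tendsto_nhdsWithin_iff.2 ⟨?_, ?_⟩
  · exact ((continuous_const.sub continuous_id).tendsto p).mono_left nhdsWithin_le_nhds
  · filter_upwards [self_mem_nhdsWithin] with x hx
    have hx' : 0 < x.im := hx
    change (1 - x).im < 0
    rw [Complex.sub_im, Complex.one_im]
    linarith

theorem P7b_one_sub_down (p : ℂ) :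
    Tendsto (fun x : ℂ => 1 - x) (𝓝[{z : ℂ | z.im < 0}] p) (𝓝[{z : ℂ | 0 < z.im}] (1 - p)) := by
  refine tendsto_nhdsWithin_iff.2 ⟨?_, ?_⟩
  · exact ((continuous_const.sub continuous_id).tendsto p).mono_left nhdsWithin_le_nhds
  · filter_upwards [self_mem_nhdsWithin] with x hx
    have hx' : x.im < 0 := hx
    change 0 < (1 - x).im
    rw [Complex.sub_im, Complex.one_im]
    linarith

theorem P7b_Om {x : ℂ} (hx : x.im ≠ 0) : x ∈ Om := by
  refine ⟨Or.inr hx, Or.inr ?_⟩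
  rw [Complex.sub_im, Complex.one_im, zero_sub, neg_ne_zero]
  exact hx

theorem cross_pos {α β : ℝ} (hα : 0 < α) (hβ : 0 < β) (hab : ∀ p : ℕ, α + β - 1 ≠ p) {A A' : ℂ}
    (h : ∀ x : ℂ, 0 < x.im → 1 < ‖x‖ →
      x ^ (α:ℂ) * gg α β x = A + exp (-(Real.pi * I * ((β:ℂ) - 1))) * Gh α β x)
    (h' : ∀ x : ℂ, x.im < 0 → 1 < ‖x‖ →
      x ^ (α:ℂ) * gg α β x = A' + exp (Real.pi * I * ((β:ℂ) - 1)) * Gh α β x) :
    betaIntegral α β - A' = exp (2 * Real.pi * I * β) * (betaIntegral α β - A) := by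
  have h2n : 1 < ‖(2 : ℂ)‖ := by norm_num
  have h20 : (2 : ℂ).im = 0 := by norm_num
  have hq : (1 - (2 : ℂ)) = -1 := by norm_num
  have hp : (1 - (2 : ℂ)).re < 0 := by norm_num
  have hp0 : (1 - (2 : ℂ)).im = 0 := by norm_num
  have hlog : Real.log ‖(1 - (2 : ℂ))‖ = 0 := by
    rw [hq, norm_neg, norm_one, Real.log_one]
  have hD : (1 - (2 : ℂ)) ∈ D0 := by
    change 1 - (1 - (2 : ℂ)) ∈ slitPlane
    left
    norm_num
  have hgg : ContinuousAt (fun x : ℂ => gg β α (1 - x)) 2 :=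
    ContinuousAt.comp (f := fun x : ℂ => 1 - x) (P7a_gg (β := α) hβ hD) (by fun_prop)
  have hslit : (2 : ℂ) ∈ slitPlane := by
    left
    norm_num
  have hGh : ContinuousAt (Gh α β) 2 := by
    unfold Gh
    exact (ContinuousAt.cpow continuousAt_id continuousAt_const hslit).mul (P7a_gam hab h2n)
  have e1 : exp ((Real.log ‖(1 - (2 : ℂ))‖ - Real.pi * I) * (β : ℂ)) * gg β α (1 - 2) +
      exp (-(Real.pi * I * ((β:ℂ) - 1))) * Gh α β 2 = betaIntegral α β - A := by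
    have hne := P7a_neUp h20
    have t1 := ((P7a_down hp hp0 (β : ℂ)).comp (P7b_one_sub_up 2)).mul
      (hgg.tendsto.mono_left nhdsWithin_le_nhds)
    have t2 := (hGh.tendsto.mono_left (nhdsWithin_le_nhds (s := {z : ℂ | 0 < z.im}))).const_mul
      (exp (-(Real.pi * I * ((β:ℂ) - 1))))
    have t3 := t1.add t2
    refine tendsto_nhds_unique t3 (tendsto_const_nhds.congr' ?_)
    filter_upwards [self_mem_nhdsWithin, P7a_norm h2n _] with x hx hx1
    have hx' : 0 < x.im := hx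
    have h3 := gg_add hα hβ (P7b_Om hx'.ne')
    have h4 := h x hx' hx1
    rw [h4] at h3
    change betaIntegral α β - A = (1 - x) ^ (β : ℂ) * gg β α (1 - x) + _
    rw [← h3]
    ring
  have e2 : exp ((Real.log ‖(1 - (2 : ℂ))‖ + Real.pi * I) * (β : ℂ)) * gg β α (1 - 2) +
      exp (Real.pi * I * ((β:ℂ) - 1)) * Gh α β 2 = betaIntegral α β - A' := by
    have hne := P7a_neDown h20
    have t1 := ((P7a_up hp hp0 (β : ℂ)).comp (P7b_one_sub_down 2)).mul
      (hgg.tendsto.mono_left nhdsWithin_le_nhds)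
    have t2 := (hGh.tendsto.mono_left (nhdsWithin_le_nhds (s := {z : ℂ | z.im < 0}))).const_mul
      (exp (Real.pi * I * ((β:ℂ) - 1)))
    have t3 := t1.add t2
    refine tendsto_nhds_unique t3 (tendsto_const_nhds.congr' ?_)
    filter_upwards [self_mem_nhdsWithin, P7a_norm h2n _] with x hx hx1
    have hx' : x.im < 0 := hx
    have h3 := gg_add hα hβ (P7b_Om hx'.ne)
    have h4 := h' x hx' hx1
    rw [h4] at h3
    change betaIntegral α β - A' = (1 - x) ^ (β : ℂ) * gg β α (1 - x) + _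
    rw [← h3]
    ring
  rw [hlog] at e1 e2
  have k1 : exp (((0 : ℝ) + Real.pi * I) * (β : ℂ)) =
      exp (2 * Real.pi * I * β) * exp (((0 : ℝ) - Real.pi * I) * (β : ℂ)) := by
    rw [← Complex.exp_add]
    congr 1
    push_cast
    ring
  have k2 : exp (Real.pi * I * ((β:ℂ) - 1)) =
      exp (2 * Real.pi * I * β) * exp (-(Real.pi * I * ((β:ℂ) - 1))) := by
    have h1 : exp (Real.pi * I * ((β:ℂ) - 1)) = exp (Real.pi * I * β) * exp (-(Real.pi * I)) := by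
      rw [← Complex.exp_add]
      congr 1
      ring
    have h2 : exp (2 * Real.pi * I * β) * exp (-(Real.pi * I * ((β:ℂ) - 1))) =
        exp (Real.pi * I * β) * exp (Real.pi * I) := by
      rw [← Complex.exp_add, ← Complex.exp_add]
      congr 1
      ring
    rw [h1, h2, Complex.exp_neg, Complex.exp_pi_mul_I]
    norm_num
  rw [← e1, ← e2]
  linear_combination (gg β α (1 - 2)) * k1 + (Gh α β 2) * k2

theorem inf_const {α β : ℝ} (hα : 0 < α) (hβ : 0 < β) (hab : ∀ p : ℕ, α + β - 1 ≠ p) :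
    ∃ A : ℂ, A * (exp (-(2 * Real.pi * I * α)) - exp (2 * Real.pi * I * β)) =
        betaIntegral α β * (1 - exp (2 * Real.pi * I * β)) ∧
      ∀ x : ℂ, 0 < x.im → 1 < ‖x‖ →
        x ^ (α:ℂ) * gg α β x = A + exp (-(Real.pi * I * ((β:ℂ) - 1))) * Gh α β x := by
  obtain ⟨A, h⟩ := inf_up hα hab
  obtain ⟨A', h'⟩ := inf_down hα hab
  refine ⟨A, ?_, h⟩
  have h1 := cross_neg hα hab h h'
  have h2 := cross_pos hα hβ hab h h'
  rw [h1] at h2
  linear_combination -h2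

/-! ### two entire charts -/

theorem glue (f g : ℂ → ℂ) (hf : DifferentiableOn ℂ f D0) (hg : DifferentiableOn ℂ g slitPlane)
    (h : ∀ x ∈ Om, f x = g x) : ∃ H : ℂ → ℂ, Differentiable ℂ H ∧ ∀ x ∈ Om, H x = f x := by
  classical
  refine ⟨fun x => if x ∈ D0 then f x else g x, ?_, fun x hx => by
    simp only [if_pos (show x ∈ D0 from hx.2)]⟩
  intro x
  by_cases hx : x ∈ D0
  · have h1 : DifferentiableAt ℂ f x := (hf x hx).differentiableAt (isOpen_D0.mem_nhds hx)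
    refine h1.congr_of_eventuallyEq ?_
    filter_upwards [isOpen_D0.mem_nhds hx] with y hy
    simp only [if_pos hy]
  · have hs : x ∈ slitPlane := by
      have h2 : ¬ (1 - x ∈ slitPlane) := hx
      rw [Complex.mem_slitPlane_iff] at h2 ⊢
      simp only [not_or, not_lt, not_not, Complex.sub_re, Complex.one_re, Complex.sub_im,
        Complex.one_im, zero_sub, ne_eq] at h2
      left; linarith [h2.1]
    have h1 : DifferentiableAt ℂ g x := (hg x hs).differentiableAt (isOpen_slitPlane.mem_nhds hs)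
    refine h1.congr_of_eventuallyEq ?_
    filter_upwards [isOpen_slitPlane.mem_nhds hs] with y hy
    by_cases hy0 : y ∈ D0
    · simp only [if_pos hy0]; exact h y ⟨hy, hy0⟩
    · simp only [if_neg hy0]


theorem summable_of_hasSum {c : ℕ → ℂ} {r : ℝ} (hr : 0 ≤ r) {v : ℂ}
    (h : HasSum (fun k => c k * (r : ℂ) ^ k) v) : Summable fun k => ‖c k‖ * r ^ k := by
  refine h.summable.norm.congr fun k => ?_
  rw [norm_mul, norm_pow, Complex.norm_real, Real.norm_of_nonneg hr]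

theorem taylor {R : ℝ} (hR : 0 < R) {g : ℂ → ℂ} (hg : DifferentiableOn ℂ g (Metric.ball 0 R)) :
    ∃ c : ℕ → ℂ, (∀ r : ℝ, 0 ≤ r → r < R → Summable fun k => ‖c k‖ * r ^ k) ∧
      ∀ s : ℂ, ‖s‖ < R → HasSum (fun k => c k * s ^ k) (g s) := by
  have h1 : ∀ s : ℂ, ‖s‖ < R →
      HasSum (fun k : ℕ => ((k.factorial : ℂ)⁻¹ * iteratedDeriv k g 0) * s ^ k) (g s) := by
    intro s hs
    have h := Complex.hasSum_taylorSeries_on_ball hg (z := s) (by simpa using hs)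
    simp only [sub_zero, smul_eq_mul] at h
    have h2 : (fun k : ℕ => ((k.factorial : ℂ)⁻¹ * iteratedDeriv k g 0) * s ^ k) =
        fun n : ℕ => (n.factorial : ℂ)⁻¹ * (s ^ n * iteratedDeriv n g 0) := by
      funext k; ring
    rw [h2]
    exact h
  refine ⟨_, fun r hr hr2 => ?_, h1⟩
  exact summable_of_hasSum hr (h1 (r : ℂ) (by rwa [Complex.norm_real, Real.norm_of_nonneg hr]))

theorem taylor_entire {g : ℂ → ℂ} (hg : Differentiable ℂ g) :
    ∃ c : ℕ → ℂ, (∀ r : ℝ, 0 ≤ r → Summable fun k => ‖c k‖ * r ^ k) ∧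
      ∀ s : ℂ, HasSum (fun k => c k * s ^ k) (g s) := by
  have h1 : ∀ s : ℂ,
      HasSum (fun k : ℕ => ((k.factorial : ℂ)⁻¹ * iteratedDeriv k g 0) * s ^ k) (g s) := by
    intro s
    have h := Complex.hasSum_taylorSeries_of_entire hg 0 s
    simp only [sub_zero, smul_eq_mul] at h
    have h2 : (fun k : ℕ => ((k.factorial : ℂ)⁻¹ * iteratedDeriv k g 0) * s ^ k) =
        fun n : ℕ => (n.factorial : ℂ)⁻¹ * (s ^ n * iteratedDeriv n g 0) := by
      funext k; ring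
    rw [h2]
    exact h
  exact ⟨_, fun r hr => summable_of_hasSum hr (h1 (r : ℂ)), h1⟩

end

end Pool.Agent.Helper65.LT
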