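import Pool.Agent.Helper65.LT.Pa

/-!
PROJECT LT (MP_274814), block F4-F6 (periods), captain helper65. Part b: arithmetic, sheets, the entire functions `H_k`.
-/

namespace Pool.Agent.Helper65.LT

open Pool.Agent.Helper34.LT Finset Complex Filter Topology

noncomputable section

/-! ### arithmetic -/

theorem zt_prim {q : ℕ} (hq : q ≠ 0) : IsPrimitiveRoot (zt q) q :=
  Complex.isPrimitiveRoot_exp q hq

theorem zt_ne (q : ℕ) : zt q ≠ 0 := Complex.exp_ne_zero _

theorem exp_al (q a u : ℕ) (hq : q ≠ 0) : exp (2 * Real.pi * I * (al q a u : ℂ)) = zt q ^ (u * a) := by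
  have hq' : (q : ℂ) ≠ 0 := by exact_mod_cast hq
  have h1 : (al q a u : ℂ) = ((u * a % q : ℕ) : ℂ) / q := by
    unfold al; push_cast; rfl
  have h2 : zt q ^ (u * a) = zt q ^ (u * a % q) := by
    conv_lhs => rw [← Nat.div_add_mod (u * a) q]
    rw [pow_add, pow_mul, (zt_prim hq).pow_eq_one, one_pow, one_mul]
  rw [h2, h1]
  unfold zt
  rw [← Complex.exp_nat_mul]
  congr 1
  field_simp

theorem mod_pos {q a u : ℕ} (ha : Nat.Coprime a q) (hu : u ∈ Icc 1 (q - 1)) : 0 < (u * a) % q := by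
  rw [mem_Icc] at hu
  refine Nat.pos_of_ne_zero fun h => ?_
  have h1 : q ∣ u * a := Nat.dvd_of_mod_eq_zero h
  have h2 : q ∣ u := (Nat.Coprime.dvd_mul_right ha.symm).1 h1
  have := Nat.le_of_dvd (by omega) h2
  omega

theorem al_pos {q a u : ℕ} (hq : q ≠ 0) (ha : Nat.Coprime a q) (hu : u ∈ Icc 1 (q - 1)) : 0 < al q a u := by
  have h1 := mod_pos ha hu
  have h2 : 0 < q := Nat.pos_of_ne_zero hq
  unfold al
  positivity

theorem al_nonneg (q a u : ℕ) : 0 ≤ al q a u := by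
  unfold al
  positivity

theorem al_lt_one {q : ℕ} (a u : ℕ) (hq : q ≠ 0) : al q a u < 1 := by
  have h2 : 0 < q := Nat.pos_of_ne_zero hq
  unfold al
  rw [div_lt_one (by positivity)]
  exact_mod_cast Nat.mod_lt _ h2

theorem al_add_ne {q a b u : ℕ} (hq : q ≠ 0) (hab : Nat.Coprime (a + b) q) (hu : u ∈ Icc 1 (q - 1)) (p : ℤ) :
    al q a u + al q b u - 1 ≠ p := by
  intro h
  have h2 : (q : ℝ) ≠ 0 := by exact_mod_cast hq
  have h3 : (((u * a) % q : ℕ) : ℝ) + ((u * b) % q : ℕ) = (p + 1) * q := by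
    unfold al at h
    field_simp at h
    linarith
  have h4 : (((u * a) % q : ℕ) : ℤ) + ((u * b) % q : ℕ) = (p + 1) * q := by
    have h3' : ((((((u * a) % q : ℕ) : ℤ) + (((u * b) % q : ℕ) : ℤ)) : ℤ) : ℝ) = (((p + 1) * q : ℤ) : ℝ) := by
      push_cast
      exact h3
    exact Int.cast_injective h3'
  have h5 : ((q : ℕ) : ℤ) ∣ (u * (a + b) : ℕ) := by
    have h6 : ((u * (a + b) : ℕ) : ℤ) = q * ((u * a) / q : ℕ) + q * ((u * b) / q : ℕ) + (p + 1) * q := by
      rw [← h4]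
      have e1 := Nat.div_add_mod (u * a) q
      have e2 := Nat.div_add_mod (u * b) q
      have : u * (a + b) = q * ((u * a) / q) + q * ((u * b) / q) + ((u * a) % q + (u * b) % q) := by
        rw [mul_add]; omega
      exact_mod_cast this
    rw [h6]
    exact ⟨((u * a) / q : ℕ) + ((u * b) / q : ℕ) + (p + 1), by ring⟩
  have h7 : q ∣ u * (a + b) := by exact_mod_cast h5
  exact absurd (Nat.dvd_iff_mod_eq_zero.1 h7) (mod_pos hab hu).ne'

theorem beta_ne {α β : ℝ} (hα : 0 < α) (hβ : 0 < β) : betaIntegral α β ≠ 0 := by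
  intro h
  have h1 := Complex.Gamma_mul_Gamma_eq_betaIntegral (s := (α : ℂ)) (t := (β : ℂ)) (by simpa using hα)
    (by simpa using hβ)
  rw [h, mul_zero] at h1
  rcases mul_eq_zero.1 h1 with h2 | h2
  · exact Complex.Gamma_ne_zero_of_re_pos (by simpa using hα) h2
  · exact Complex.Gamma_ne_zero_of_re_pos (by simpa using hβ) h2

theorem sum_zt_pow {q : ℕ} (hq : q ≠ 0) (k : ℕ) :
    ∃ n : ℤ, ∑ u ∈ Icc 1 (q - 1), (zt q ^ u) ^ k = (n : ℂ) := by
  have hp := zt_prim hq
  have h1 : ∑ u ∈ range q, (zt q ^ u) ^ k = if q ∣ k then (q : ℂ) else 0 := by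
    have e : ∀ u ∈ range q, (zt q ^ u) ^ k = (zt q ^ k) ^ u := fun u _ => by
      rw [← pow_mul, ← pow_mul, mul_comm]
    rw [sum_congr rfl e]
    split_ifs with h
    · rw [(hp.pow_eq_one_iff_dvd k).2 h]; simp
    · have h3 : zt q ^ k ≠ 1 := fun h4 => h ((hp.pow_eq_one_iff_dvd k).1 h4)
      rw [geom_sum_eq h3, ← pow_mul, mul_comm, pow_mul, hp.pow_eq_one]
      simp
  have h2 : ∑ u ∈ range q, (zt q ^ u) ^ k = 1 + ∑ u ∈ Icc 1 (q - 1), (zt q ^ u) ^ k := by
    have e : range q = insert 0 (Icc 1 (q - 1)) := by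
      ext u
      simp only [mem_range, mem_insert, mem_Icc]
      omega
    rw [e, sum_insert (by simp)]
    simp
  refine ⟨(if q ∣ k then (q : ℤ) else 0) - 1, ?_⟩
  rw [h2] at h1
  push_cast
  rw [← h1]
  ring

theorem sum_zt_int {q : ℕ} (hq : q ≠ 0) (Q : Polynomial ℤ) :
    ∃ n : ℤ, ∑ u ∈ Icc 1 (q - 1), Polynomial.aeval (zt q ^ u) Q = (n : ℂ) := by
  choose n hn using sum_zt_pow hq
  refine ⟨∑ i ∈ range (Q.natDegree + 1), Q.coeff i * n i, ?_⟩
  push_cast
  simp_rw [← hn, mul_sum]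
  rw [sum_comm]
  refine sum_congr rfl fun u _ => ?_
  rw [Polynomial.aeval_eq_sum_range]
  refine sum_congr rfl fun i _ => ?_
  simp [Algebra.smul_def]

theorem exists_K0 {q a b : ℕ} (hq : q ≠ 0) (hab : Nat.Coprime (a + b) q) :
    ∃ K0 : Polynomial ℤ, ∀ u ∈ Icc 1 (q - 1), ∀ A B : ℂ,
      A * ((zt q ^ (u * a))⁻¹ - zt q ^ (u * b)) = B * (1 - zt q ^ (u * b)) →
        A = B * Polynomial.aeval (zt q ^ u) K0 := by
  have hp := zt_prim hq
  obtain ⟨e, he⟩ : ∃ e : ℕ, ((a + b) * e) % q = b % q := by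
    have : NeZero q := ⟨hq⟩
    have h0 := ZMod.coe_mul_inv_eq_one (a + b) hab
    refine ⟨((((a + b : ℕ) : ZMod q))⁻¹ * (b : ZMod q)).val, ?_⟩
    have : (((a + b) * ((((a + b : ℕ) : ZMod q))⁻¹ * (b : ZMod q)).val : ℕ) : ZMod q) = (b : ℕ) := by
      push_cast
      rw [ZMod.natCast_val, ZMod.cast_id', id, ← mul_assoc]
      push_cast at h0
      rw [h0, one_mul]
    exact (ZMod.natCast_eq_natCast_iff _ _ _).1 this
  refine ⟨Polynomial.X ^ a * ∑ i ∈ range e, (Polynomial.X ^ (a + b)) ^ i, fun u hu A B h => ?_⟩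
  set z := zt q ^ u with hz
  have hz0 : z ≠ 0 := pow_ne_zero _ (by unfold zt; exact exp_ne_zero _)
  have hzq : z ^ q = 1 := by rw [hz, ← pow_mul, mul_comm, pow_mul, hp.pow_eq_one, one_pow]
  have h1 : z ^ (a + b) ≠ 1 := by
    rw [hz, ← pow_mul]
    intro h2
    have h3 := (hp.pow_eq_one_iff_dvd _).1 h2
    exact absurd (Nat.dvd_iff_mod_eq_zero.1 h3) (mod_pos hab hu).ne'
  have h2 : (z ^ (a + b)) ^ e = z ^ b := by
    rw [← pow_mul, ← Nat.div_add_mod ((a + b) * e) q, he, pow_add, pow_mul, hzq, one_pow, one_mul]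
    conv_rhs => rw [← Nat.div_add_mod b q, pow_add, pow_mul, hzq, one_pow, one_mul]
  rw [map_mul, map_pow, map_sum]
  simp only [map_pow, Polynomial.aeval_X]
  rw [geom_sum_eq h1, h2]
  rw [pow_mul, pow_mul, ← hz] at h
  have h4 : z ^ (a + b) - 1 ≠ 0 := sub_ne_zero.2 h1
  have h5 : z ^ a ≠ 0 := pow_ne_zero _ hz0
  field_simp at h ⊢
  rw [pow_add] at *
  linear_combination (-1 : ℂ) * h

/-! ### sheets -/

/-- `c_u` -/
def cu (q a b : ℕ) (P : Polynomial ℤ) (u : ℕ) : ℂ :=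
  2 * Real.pi * I * Polynomial.aeval (zt q ^ u) P / betaIntegral (al q a u) (al q b u)

/-- the sheets, on `Om` -/
def Th (q a b : ℕ) (P : Polynomial ℤ) (j : ℕ) (x : ℂ) : ℂ :=
  exp (∑ u ∈ Icc 1 (q - 1), zt q ^ (j * u) *
    (x ^ (al q a u : ℂ) * (cu q a b P u * gg (al q a u) (al q b u) x)))

theorem cu_mul {q a b : ℕ} (hq : q ≠ 0) (ha : Nat.Coprime a q) (hb : Nat.Coprime b q) (P : Polynomial ℤ) {u : ℕ}
    (hu : u ∈ Icc 1 (q - 1)) :
    cu q a b P u * betaIntegral (al q a u) (al q b u) = 2 * Real.pi * I * Polynomial.aeval (zt q ^ u) P := by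
  unfold cu
  rw [div_mul_cancel₀]
  exact beta_ne (al_pos hq ha hu) (al_pos hq hb hu)

theorem exp_two_pi_int (n : ℤ) : exp (2 * Real.pi * I * n) = 1 := by
  rw [show (2 * Real.pi * I * n : ℂ) = n * (2 * Real.pi * I) by ring]
  exact Complex.exp_int_mul_two_pi_mul_I n

theorem Th_one {q a b : ℕ} (hq : q ≠ 0) (ha : Nat.Coprime a q) (hb : Nat.Coprime b q) (P : Polynomial ℤ) (j : ℕ)
    {x : ℂ} (hx : x ∈ Om) :
    Th q a b P j x = exp (∑ u ∈ Icc 1 (q - 1), zt q ^ (j * u) *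
      ((1 - x) ^ (al q b u : ℂ) * (-(cu q a b P u) * gg (al q b u) (al q a u) (1 - x)))) := by
  obtain ⟨n, hn⟩ := sum_zt_int hq (Polynomial.X ^ j * P)
  have h1 : ∑ u ∈ Icc 1 (q - 1), zt q ^ (j * u) *
      (x ^ (al q a u : ℂ) * (cu q a b P u * gg (al q a u) (al q b u) x)) =
      2 * Real.pi * I * (n : ℂ) + ∑ u ∈ Icc 1 (q - 1), zt q ^ (j * u) *
      ((1 - x) ^ (al q b u : ℂ) * (-(cu q a b P u) * gg (al q b u) (al q a u) (1 - x))) := by
    rw [← hn, mul_sum, ← sum_add_distrib]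
    refine sum_congr rfl fun u hu => ?_
    have h2 := gg_add (al_pos hq ha hu) (al_pos hq hb hu) hx
    have h3 := cu_mul hq ha hb P hu
    rw [map_mul, map_pow, Polynomial.aeval_X, ← pow_mul, mul_comm u j]
    rw [← h2] at h3
    linear_combination (zt q ^ (j * u)) * h3
  unfold Th
  rw [h1, exp_add, exp_two_pi_int, one_mul]

theorem Th_inf {q a b : ℕ} (hq : q ≠ 0) (ha : Nat.Coprime a q) (hb : Nat.Coprime b q) (hab : Nat.Coprime (a + b) q)
    (P : Polynomial ℤ) {x : ℂ} (hx : 0 < x.im) (h1 : 1 < ‖x‖) :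
    Th q a b P 0 x = exp (∑ u ∈ Icc 1 (q - 1),
      exp (-(Real.pi * I * ((al q b u : ℂ) - 1))) * cu q a b P u * Gh (al q a u) (al q b u) x) := by
  obtain ⟨K0, hK⟩ := exists_K0 (a := a) (b := b) hq hab
  obtain ⟨n, hn⟩ := sum_zt_int hq (P * K0)
  have h2 : ∑ u ∈ Icc 1 (q - 1), zt q ^ (0 * u) *
      (x ^ (al q a u : ℂ) * (cu q a b P u * gg (al q a u) (al q b u) x)) =
      2 * Real.pi * I * (n : ℂ) + ∑ u ∈ Icc 1 (q - 1),
      exp (-(Real.pi * I * ((al q b u : ℂ) - 1))) * cu q a b P u * Gh (al q a u) (al q b u) x := by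
    rw [← hn, mul_sum, ← sum_add_distrib]
    refine sum_congr rfl fun u hu => ?_
    obtain ⟨A, hA, hA2⟩ := inf_const (α := al q a u) (β := al q b u) (al_pos hq ha hu) (al_pos hq hb hu)
      (fun p => by exact_mod_cast al_add_ne hq hab hu (p : ℤ))
    have h3 := cu_mul hq ha hb P hu
    have h4 := hA2 x hx h1
    have h5 : A = betaIntegral (al q a u) (al q b u) * Polynomial.aeval (zt q ^ u) K0 := by
      refine hK u hu A _ ?_
      rw [← exp_al q a u hq, ← exp_al q b u hq, ← Complex.exp_neg]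
      exact hA
    rw [map_mul, zero_mul, pow_zero, one_mul]
    rw [h5] at h4
    linear_combination (cu q a b P u) * h4 + (Polynomial.aeval (zt q ^ u) K0) * h3
  unfold Th
  rw [h2, exp_add, exp_two_pi_int, one_mul]


/-! ### isotypic parts -/

theorem prod_fin (n : ℕ) : ∀ f : Fin n → ℕ → ℂ, (∀ u, Summable fun k => ‖f u k‖) →
    Summable (fun m : Fin n → ℕ => ‖∏ u, f u (m u)‖) ∧
      ∑' m : Fin n → ℕ, ∏ u, f u (m u) = ∏ u, ∑' k, f u k := by
  induction n with
  | zero =>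
    intro f _
    let m0 : Fin 0 → ℕ := Fin.elim0
    have h0 : ∀ m : Fin 0 → ℕ, m = m0 := fun m => funext fun u => u.elim0
    refine ⟨?_, ?_⟩
    · have h1 : HasSum (fun m : Fin 0 → ℕ => ‖∏ u, f u (m u)‖) (‖∏ u, f u (m0 u)‖) :=
        hasSum_single m0 fun m hm => absurd (h0 m) hm
      exact h1.summable
    · have h1 : HasSum (fun m : Fin 0 → ℕ => ∏ u, f u (m u)) (∏ u, f u (m0 u)) :=
        hasSum_single m0 fun m hm => absurd (h0 m) hm
      rw [h1.tsum_eq, Fin.prod_univ_zero, Fin.prod_univ_zero]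
  | succ n ih =>
    intro f hf
    obtain ⟨h1, h2⟩ := ih (fun u => f u.succ) (fun u => hf u.succ)
    let e : ℕ × (Fin n → ℕ) ≃ (Fin (n + 1) → ℕ) := Fin.consEquiv (fun _ => ℕ)
    have he : ∀ p : ℕ × (Fin n → ℕ), ∏ u, f u (e p u) = f 0 p.1 * ∏ u : Fin n, f u.succ (p.2 u) := by
      intro p
      have e0 : e p 0 = p.1 := rfl
      have e1 : ∀ u : Fin n, e p u.succ = p.2 u := fun u => rfl
      rw [Fin.prod_univ_succ, e0]
      congr 1
    obtain ⟨g, hg⟩ : ∃ g : (Fin n → ℕ) → ℂ, g = fun m => ∏ u, f u.succ (m u) := ⟨_, rfl⟩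
    obtain ⟨f0, hf0⟩ : ∃ f0 : ℕ → ℂ, f0 = f 0 := ⟨_, rfl⟩
    have he' : ∀ p : ℕ × (Fin n → ℕ), ∏ u, f u (e p u) = f0 p.1 * g p.2 := by
      intro p; rw [he, hg, hf0]
    have h1' : Summable fun m => ‖g m‖ := by rw [hg]; exact h1
    have h0' : Summable fun k => ‖f0 k‖ := by rw [hf0]; exact hf 0
    have h3 : Summable (fun p : ℕ × (Fin n → ℕ) => ‖f0 p.1 * g p.2‖) :=
      Summable.mul_norm h0' h1'
    constructor
    · rw [← e.summable_iff]
      refine h3.congr fun p => ?_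
      rw [Function.comp_apply, he']
    · rw [← e.tsum_eq]
      simp_rw [he']
      rw [← tsum_mul_tsum_of_summable_norm h0' h1', Fin.prod_univ_succ, ← h2, hf0, hg]

theorem prod_gen {ι : Type} [Fintype ι] (f : ι → ℕ → ℂ) (hf : ∀ u, Summable fun k => ‖f u k‖) :
    Summable (fun m : ι → ℕ => ‖∏ u, f u (m u)‖) ∧
      ∑' m : ι → ℕ, ∏ u, f u (m u) = ∏ u, ∑' k, f u k := by
  classical
  let s : ι ≃ Fin (Fintype.card ι) := Fintype.equivFin ι
  obtain ⟨h1, h2⟩ := prod_fin _ (fun v => f (s.symm v)) (fun v => hf _)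
  let e : (Fin (Fintype.card ι) → ℕ) ≃ (ι → ℕ) := s.symm.arrowCongr (Equiv.refl ℕ)
  have he : ∀ m : Fin (Fintype.card ι) → ℕ, ∏ u, f u (e m u) = ∏ v, f (s.symm v) (m v) := by
    intro m
    rw [← s.symm.prod_comp]
    refine prod_congr rfl fun v _ => ?_
    simp [e]
  constructor
  · rw [← e.summable_iff]
    refine h1.congr fun m => ?_
    rw [Function.comp_apply, he]
  · rw [← e.tsum_eq]
    simp_rw [he]
    rw [h2, ← s.symm.prod_comp]

theorem hasSum_exp_prod {ι : Type} [Fintype ι] (y : ι → ℂ) :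
    HasSum (fun m : ι → ℕ => ∏ u, y u ^ m u / ((m u).factorial : ℂ)) (exp (∑ u, y u)) := by
  obtain ⟨h1, h2⟩ := prod_gen (fun u k => y u ^ k / (k.factorial : ℂ))
    (fun u => by
      have := Real.summable_pow_div_factorial ‖y u‖
      refine this.congr fun k => ?_
      rw [norm_div, norm_pow, Complex.norm_natCast])
  have h3 : ∏ u, ∑' k : ℕ, y u ^ k / (k.factorial : ℂ) = exp (∑ u, y u) := by
    rw [Complex.exp_sum]
    refine prod_congr rfl fun u _ => ?_
    rw [Complex.exp_eq_exp_ℂ, NormedSpace.exp_eq_tsum_div]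
  rw [← h3, ← h2]
  exact h1.of_norm.hasSum

theorem summable_exp_prod {ι : Type} [Fintype ι] (y : ι → ℝ) (hy : ∀ u, 0 ≤ y u) :
    Summable (fun m : ι → ℕ => ∏ u, y u ^ m u / ((m u).factorial : ℝ)) := by
  obtain ⟨h1, -⟩ := prod_gen (fun u k => ((y u : ℝ) : ℂ) ^ k / (k.factorial : ℂ))
    (fun u => by
      have := Real.summable_pow_div_factorial ‖y u‖
      refine this.congr fun k => ?_
      rw [norm_div, norm_pow, Complex.norm_natCast, Complex.norm_real])
  refine h1.congr fun m => ?_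
  rw [norm_prod]
  refine prod_congr rfl fun u _ => ?_
  rw [norm_div, norm_pow, Complex.norm_natCast, Complex.norm_real, Real.norm_of_nonneg (hy u)]

/-- `∑_{m, ∑ w m = k mod q} x^((∑ d m - e)/q) ∏ y^m / m!` -/
def AA {ι : Type} [Fintype ι] (q : ℕ) (w d : ι → ℕ) (k e : ℕ) (x : ℂ) (y : ι → ℂ) : ℂ :=
  ∑' m : ι → ℕ, if (∑ u, w u * m u) % q = k then
    x ^ ((∑ u, d u * m u - e) / q) * ∏ u, y u ^ m u / ((m u).factorial : ℂ) else 0

theorem AA_diff {ι : Type} [Fintype ι] {q : ℕ} (hq : q ≠ 0) (w d : ι → ℕ) (hd : ∀ u, d u ≤ q) (k e : ℕ)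
    {D : Set ℂ} (hD : IsOpen D) (y : ι → ℂ → ℂ) (hy : ∀ u, DifferentiableOn ℂ (y u) D) :
    DifferentiableOn ℂ (fun x => AA q w d k e x (fun u => y u x)) D := by
  intro x0 hx0
  obtain ⟨M, hM1, hMx, hMy⟩ : ∃ M : ℝ, 1 ≤ M ∧ ‖x0‖ < M ∧ ∀ u, ‖y u x0‖ < M := by
    refine ⟨1 + ‖x0‖ + ∑ u, ‖y u x0‖, ?_, ?_, fun u => ?_⟩
    · have : 0 ≤ ∑ u, ‖y u x0‖ := sum_nonneg fun u _ => norm_nonneg _
      have := norm_nonneg x0
      linarith
    · have : 0 ≤ ∑ u, ‖y u x0‖ := sum_nonneg fun u _ => norm_nonneg _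
      linarith
    · have h1 : ‖y u x0‖ ≤ ∑ u, ‖y u x0‖ :=
        single_le_sum (f := fun u => ‖y u x0‖) (fun u _ => norm_nonneg _) (mem_univ u)
      have := norm_nonneg x0
      linarith
  have hev : ∀ᶠ x in 𝓝 x0, x ∈ D ∧ ‖x‖ < M ∧ ∀ u, ‖y u x‖ < M := by
    refine Filter.Eventually.and (hD.mem_nhds hx0) (Filter.Eventually.and ?_ ?_)
    · exact (continuous_norm.tendsto x0).eventually (gt_mem_nhds hMx)
    · rw [Filter.eventually_all]
      intro u
      have h1 : ContinuousAt (y u) x0 := ((hy u).continuousOn).continuousAt (hD.mem_nhds hx0)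
      exact (h1.norm).eventually (gt_mem_nhds (hMy u))
  obtain ⟨t, ht, hto, hxt⟩ := eventually_nhds_iff.1 hev
  have hM0 : 0 ≤ M := by linarith
  have main : DifferentiableOn ℂ (fun x => AA q w d k e x (fun u => y u x)) t := by
    unfold AA
    refine differentiableOn_tsum_of_summable_norm
      (u := fun m : ι → ℕ => ∏ u, (M * M) ^ m u / ((m u).factorial : ℝ)) ?_ ?_ hto ?_
    · exact summable_exp_prod (fun _ => M * M) (fun _ => by positivity)
    · intro m
      by_cases h : (∑ u, w u * m u) % q = k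
      · simp only [if_pos h]
        refine DifferentiableOn.mul (by fun_prop) ?_
        refine DifferentiableOn.fun_finsetProd fun u _ => ?_
        refine DifferentiableOn.div_const ?_ _
        exact ((hy u).mono (fun x hx => (ht x hx).1)).pow _
      · simp only [if_neg h]
        exact differentiableOn_const _
    · intro m x hx
      obtain ⟨-, h1, h2⟩ := ht x hx
      by_cases h : (∑ u, w u * m u) % q = k
      · simp only [if_pos h]
        rw [norm_mul, norm_pow, norm_prod]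
        have e1 : ∏ u, (M * M) ^ m u / ((m u).factorial : ℝ) =
            M ^ (∑ u, m u) * ∏ u, M ^ m u / ((m u).factorial : ℝ) := by
          rw [← prod_pow_eq_pow_sum, ← prod_mul_distrib]
          refine prod_congr rfl fun u _ => ?_
          rw [mul_pow]; ring
        rw [e1]
        refine mul_le_mul ?_ ?_ (prod_nonneg fun u _ => norm_nonneg _) (by positivity)
        · calc ‖x‖ ^ ((∑ u, d u * m u - e) / q) ≤ M ^ ((∑ u, d u * m u - e) / q) :=
                pow_le_pow_left₀ (norm_nonneg _) h1.le _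
            _ ≤ M ^ (∑ u, m u) := by
                refine pow_le_pow_right₀ hM1 ?_
                rw [Nat.div_le_iff_le_mul_add_pred (Nat.pos_of_ne_zero hq)]
                have : ∑ u, d u * m u ≤ q * ∑ u, m u := by
                  rw [mul_sum]
                  exact sum_le_sum fun u _ => Nat.mul_le_mul_right _ (hd u)
                omega
        · refine prod_le_prod (fun u _ => norm_nonneg _) fun u _ => ?_
          rw [norm_div, norm_pow, Complex.norm_natCast]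
          refine div_le_div_of_nonneg_right ?_ (by positivity)
          exact pow_le_pow_left₀ (norm_nonneg _) (h2 u).le _
      · simp only [if_neg h, norm_zero]
        positivity
  exact (main.differentiableAt (hto.mem_nhds hxt)).differentiableWithinAt

theorem AA_sum {ι : Type} [Fintype ι] {q a : ℕ} (hq : q ≠ 0) (w : ι → ℕ) {k : ℕ} (hk : k < q) {x : ℂ}
    (hx : x ≠ 0) (y : ι → ℂ) :
    (q : ℂ)⁻¹ * ∑ j ∈ range q, (zt q ^ (j * k))⁻¹ *
        exp (∑ u, zt q ^ (j * w u) * (x ^ (al q a (w u) : ℂ) * y u)) =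
      x ^ (al q a k : ℂ) * AA q w (fun u => (w u * a) % q) k ((k * a) % q) x y := by
  have hq' : (q : ℂ) ≠ 0 := by exact_mod_cast hq
  have hz := zt_ne q
  have hp := zt_prim hq
  have hal : ∀ u, x ^ (al q a u : ℂ) = exp (log x / q) ^ (u * a % q) := by
    intro u
    have h1 : (al q a u : ℂ) = ((u * a % q : ℕ) : ℂ) / q := by
      unfold al; push_cast; rfl
    rw [Complex.cpow_def_of_ne_zero hx, ← Complex.exp_nat_mul, h1]
    congr 1
    field_simp
  set X := exp (log x / q) with hX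
  have hXq : X ^ q = x := by
    rw [hX, ← Complex.exp_nat_mul, mul_div_cancel₀ _ hq', Complex.exp_log hx]
  have hprod : ∀ m : ι → ℕ, ∏ u, (x ^ (al q a (w u) : ℂ) * y u) ^ m u / ((m u).factorial : ℂ) =
      X ^ (∑ u, (w u * a) % q * m u) * ∏ u, y u ^ m u / ((m u).factorial : ℂ) := by
    intro m
    rw [← prod_pow_eq_pow_sum, ← prod_mul_distrib]
    refine prod_congr rfl fun u _ => ?_
    rw [hal, mul_pow, ← pow_mul]; ring
  have hs : ∀ j, HasSum (fun m : ι → ℕ => (zt q ^ (j * k))⁻¹ *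
      (zt q ^ (j * ∑ u, w u * m u) * (X ^ (∑ u, (w u * a) % q * m u) *
        ∏ u, y u ^ m u / ((m u).factorial : ℂ))))
      ((zt q ^ (j * k))⁻¹ * exp (∑ u, zt q ^ (j * w u) * (x ^ (al q a (w u) : ℂ) * y u))) := by
    intro j
    refine HasSum.mul_left _ ?_
    have h1 := hasSum_exp_prod (fun u => zt q ^ (j * w u) * (x ^ (al q a (w u) : ℂ) * y u))
    have h2 : (fun m : ι → ℕ => ∏ u, (zt q ^ (j * w u) * (x ^ (al q a (w u) : ℂ) * y u)) ^ m u /
        ((m u).factorial : ℂ)) = fun m : ι → ℕ => zt q ^ (j * ∑ u, w u * m u) *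
        (X ^ (∑ u, (w u * a) % q * m u) * ∏ u, y u ^ m u / ((m u).factorial : ℂ)) := by
      funext m
      rw [← hprod, mul_sum, ← prod_pow_eq_pow_sum, ← prod_mul_distrib]
      refine prod_congr rfl fun u _ => ?_
      rw [mul_pow, ← pow_mul, mul_assoc j]; ring
    rw [h2] at h1
    exact h1
  have hs2 := (hasSum_sum (s := range q) fun j _ => hs j).mul_left (q : ℂ)⁻¹
  have hterm : ∀ m : ι → ℕ, (q : ℂ)⁻¹ * ∑ j ∈ range q, (zt q ^ (j * k))⁻¹ *
      (zt q ^ (j * ∑ u, w u * m u) * (X ^ (∑ u, (w u * a) % q * m u) *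
        ∏ u, y u ^ m u / ((m u).factorial : ℂ))) =
      x ^ (al q a k : ℂ) * (if (∑ u, w u * m u) % q = k then
        x ^ ((∑ u, (w u * a) % q * m u - (k * a) % q) / q) * ∏ u, y u ^ m u / ((m u).factorial : ℂ) else 0) := by
    intro m
    set N := ∑ u, w u * m u with hN
    set M := ∑ u, (w u * a) % q * m u with hM
    set Y := ∏ u, y u ^ m u / ((m u).factorial : ℂ)
    have h3 : ∑ j ∈ range q, (zt q ^ (j * k))⁻¹ * (zt q ^ (j * N) * (X ^ M * Y)) =
        (∑ j ∈ range q, (zt q ^ N * (zt q ^ k)⁻¹) ^ j) * (X ^ M * Y) := by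
      rw [sum_mul]
      refine sum_congr rfl fun j _ => ?_
      rw [mul_pow, inv_pow, ← pow_mul, ← pow_mul, mul_comm N j, mul_comm k j]; ring
    rw [h3]
    split_ifs with h
    · have h4 : zt q ^ N * (zt q ^ k)⁻¹ = 1 := by
        rw [← h]
        conv_lhs => rw [← Nat.div_add_mod N q, pow_add, pow_mul, hp.pow_eq_one, one_pow, one_mul]
        rw [Nat.mul_add_mod, Nat.mod_mod]
        exact mul_inv_cancel₀ (pow_ne_zero _ hz)
      have h5 : M % q = (k * a) % q := by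
        have e1 : (M : ℤ) ≡ (N * a : ℕ) [ZMOD q] := by
          rw [hM, hN, sum_mul]
          push_cast
          refine Int.ModEq.sum fun u _ => ?_
          have e2 : ((w u : ℤ) * a % q) * m u ≡ (w u * a) * m u [ZMOD q] :=
            (Int.mod_modEq _ _).mul_right _
          refine e2.trans ?_
          rw [show (w u : ℤ) * a * m u = w u * m u * a by ring]
        have e3 : M ≡ N * a [MOD q] := (Int.natCast_modEq_iff).1 e1
        have e4 : N * a ≡ k * a [MOD q] := by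
          refine Nat.ModEq.mul_right _ ?_
          show N % q = k % q
          rw [h, Nat.mod_eq_of_lt hk]
        exact e3.trans e4
      have h6 : M = (k * a) % q + q * ((M - (k * a) % q) / q) := by
        have h7 : (k * a) % q ≤ M := by rw [← h5]; exact Nat.mod_le _ _
        have h8 : q ∣ M - (k * a) % q := by
          rw [← h5]; exact Nat.dvd_sub_mod _
        rw [Nat.mul_div_cancel' h8]; omega
      rw [h4]
      simp only [one_pow, sum_const, card_range, nsmul_eq_mul, mul_one]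
      rw [hal, inv_mul_cancel_left₀ hq']
      conv_lhs => rw [h6, pow_add, pow_mul, hXq]
      ring
    · have h4 : zt q ^ N * (zt q ^ k)⁻¹ ≠ 1 := by
        intro h5
        have h6 : zt q ^ N = zt q ^ k := by
          rwa [mul_inv_eq_one₀ (pow_ne_zero _ hz)] at h5
        apply h
        have h7 : zt q ^ (N % q) = zt q ^ k := by
          rw [← h6]
          conv_rhs => rw [← Nat.div_add_mod N q, pow_add, pow_mul, hp.pow_eq_one, one_pow, one_mul]
        exact hp.pow_inj (Nat.mod_lt _ (Nat.pos_of_ne_zero hq)) hk h7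
      have h5 : (zt q ^ N * (zt q ^ k)⁻¹) ^ q = 1 := by
        rw [mul_pow, inv_pow, ← pow_mul, ← pow_mul, mul_comm N, mul_comm k, pow_mul, pow_mul, hp.pow_eq_one]
        simp
      rw [geom_sum_eq h4, h5]
      simp
  have hs3 := hs2.tsum_eq
  unfold AA
  rw [← hs3, ← tsum_mul_left]
  exact tsum_congr hterm

theorem sum_attach_zt {q : ℕ} (f : ℕ → ℂ) :
    ∑ u ∈ Icc 1 (q - 1), f u = ∑ u : {u // u ∈ Icc 1 (q - 1)}, f (u : ℕ) :=
  (Finset.sum_coe_sort (Icc 1 (q - 1)) f).symm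

theorem exists_H {q a b : ℕ} (hq : q ≠ 0) (ha : Nat.Coprime a q) (hb : Nat.Coprime b q) (P : Polynomial ℤ) :
    ∃ H : ℕ → ℂ → ℂ, (∀ k, Differentiable ℂ (H k)) ∧ ∀ k < q, ∀ x ∈ Om,
      H k x * (x ^ (al q a k : ℂ) * (1 - x) ^ (al q b k : ℂ)) =
        (q : ℂ)⁻¹ * ∑ j ∈ range q, (zt q ^ (j * k))⁻¹ * Th q a b P j x := by
  have key : ∀ k, ∃ H : ℂ → ℂ, Differentiable ℂ H ∧ (k < q → ∀ x ∈ Om,
      H x * (x ^ (al q a k : ℂ) * (1 - x) ^ (al q b k : ℂ)) =
        (q : ℂ)⁻¹ * ∑ j ∈ range q, (zt q ^ (j * k))⁻¹ * Th q a b P j x) := by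
    intro k
    by_cases hk : k < q
    swap
    · exact ⟨fun _ => 0, differentiable_const _, fun h => absurd h hk⟩
    let w : {u // u ∈ Icc 1 (q - 1)} → ℕ := fun u => u
    let da : {u // u ∈ Icc 1 (q - 1)} → ℕ := fun u => (w u * a) % q
    let db : {u // u ∈ Icc 1 (q - 1)} → ℕ := fun u => (w u * b) % q
    let ya : {u // u ∈ Icc 1 (q - 1)} → ℂ → ℂ := fun u x => cu q a b P u * gg (al q a u) (al q b u) x
    let yb : {u // u ∈ Icc 1 (q - 1)} → ℂ → ℂ := fun u x => -(cu q a b P u) * gg (al q b u) (al q a u) x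
    let f0 : ℂ → ℂ := fun x => AA q w da k ((k * a) % q) x (fun u => ya u x)
    let g0 : ℂ → ℂ := fun x => AA q w db k ((k * b) % q) x (fun u => yb u x)
    have hf0 : DifferentiableOn ℂ f0 D0 :=
      AA_diff hq w da (fun u => (Nat.mod_lt _ (Nat.pos_of_ne_zero hq)).le) k _ isOpen_D0 ya
        (fun u => (gg_diff (al_pos hq ha u.2)).const_mul _)
    have hg0 : DifferentiableOn ℂ g0 D0 :=
      AA_diff hq w db (fun u => (Nat.mod_lt _ (Nat.pos_of_ne_zero hq)).le) k _ isOpen_D0 yb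
        (fun u => (gg_diff (al_pos hq hb u.2)).const_mul _)
    have hpow : ∀ (c : ℂ) (x : ℂ), x ∈ slitPlane → x ^ c ≠ 0 := fun c x hx => by
      rw [Complex.cpow_def_of_ne_zero (slitPlane_ne_zero hx)]
      exact exp_ne_zero _
    have hsub : DifferentiableOn ℂ (fun x : ℂ => 1 - x) Set.univ := by fun_prop
    have hf : DifferentiableOn ℂ (fun x => f0 x / (1 - x) ^ (al q b k : ℂ)) D0 := by
      refine hf0.div ?_ (fun x hx => hpow _ _ hx)
      intro x hx
      have : DifferentiableAt ℂ (fun x : ℂ => (1 - x) ^ (al q b k : ℂ)) x := by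
        refine DifferentiableAt.cpow_const (by fun_prop) hx
      exact this.differentiableWithinAt
    have hg : DifferentiableOn ℂ (fun x => g0 (1 - x) / x ^ (al q a k : ℂ)) slitPlane := by
      refine DifferentiableOn.div ?_ ?_ (fun x hx => hpow _ _ hx)
      · refine hg0.comp (hsub.mono (Set.subset_univ _)) ?_
        intro x hx
        show 1 - (1 - x) ∈ slitPlane
        simpa using hx
      · intro x hx
        exact (DifferentiableAt.cpow_const differentiableAt_id hx).differentiableWithinAt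
    have e1 : ∀ x ∈ Om, x ^ (al q a k : ℂ) * f0 x =
        (q : ℂ)⁻¹ * ∑ j ∈ range q, (zt q ^ (j * k))⁻¹ * Th q a b P j x := by
      intro x hx
      rw [← AA_sum hq w hk (slitPlane_ne_zero hx.1)]
      congr 1
      refine sum_congr rfl fun j _ => ?_
      unfold Th
      rw [sum_attach_zt]
    have e2 : ∀ x ∈ Om, (1 - x) ^ (al q b k : ℂ) * g0 (1 - x) =
        (q : ℂ)⁻¹ * ∑ j ∈ range q, (zt q ^ (j * k))⁻¹ * Th q a b P j x := by
      intro x hx
      rw [← AA_sum hq w hk (slitPlane_ne_zero hx.2)]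
      congr 1
      refine sum_congr rfl fun j _ => ?_
      rw [Th_one hq ha hb P j hx, sum_attach_zt]
    obtain ⟨H, hH, hH2⟩ := glue _ _ hf hg (by
      intro x hx
      have h1 := hpow (al q a k : ℂ) _ hx.1
      have h2 := hpow (al q b k : ℂ) _ hx.2
      rw [div_eq_div_iff h2 h1]
      have := e1 x hx
      have := e2 x hx
      linear_combination (e1 x hx) - (e2 x hx))
    refine ⟨H, hH, fun _ x hx => ?_⟩
    have h2 := hpow (al q b k : ℂ) _ hx.2
    rw [hH2 x hx, ← e1 x hx]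
    field_simp
  choose H h1 h2 using key
  exact ⟨H, h1, fun k hk => h2 k hk⟩

theorem Th_eq_sum {q a b : ℕ} (hq : q ≠ 0) (P : Polynomial ℤ) (H : ℕ → ℂ → ℂ)
    (hH : ∀ k < q, ∀ x ∈ Om, H k x * (x ^ (al q a k : ℂ) * (1 - x) ^ (al q b k : ℂ)) =
        (q : ℂ)⁻¹ * ∑ j ∈ range q, (zt q ^ (j * k))⁻¹ * Th q a b P j x) {x : ℂ} (hx : x ∈ Om) :
    Th q a b P 0 x = ∑ k ∈ range q, H k x * (x ^ (al q a k : ℂ) * (1 - x) ^ (al q b k : ℂ)) := by
  rw [sum_congr rfl fun k hk => hH k (mem_range.1 hk) x hx, ← mul_sum, sum_comm]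
  have h1 : ∀ j ∈ range q, ∑ k ∈ range q, (zt q ^ (j * k))⁻¹ * Th q a b P j x =
      if j = 0 then (q : ℂ) * Th q a b P 0 x else 0 := by
    intro j hj
    rw [← sum_mul]
    split_ifs with h
    · subst h; simp
    · have h2 : ∑ k ∈ range q, (zt q ^ (j * k))⁻¹ = 0 := by
        have hp := zt_prim hq
        have h3 : (zt q ^ j)⁻¹ ≠ 1 := by
          intro h4
          have h5 : zt q ^ j = 1 := by simpa using h4
          exact h (Nat.eq_zero_of_dvd_of_lt (hp.pow_eq_one_iff_dvd j |>.1 h5) (mem_range.1 hj))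
        have h6 : ∑ k ∈ range q, (zt q ^ (j * k))⁻¹ = ∑ k ∈ range q, ((zt q ^ j)⁻¹) ^ k := by
          refine sum_congr rfl fun k _ => ?_
          rw [pow_mul, inv_pow]
        rw [h6, geom_sum_eq h3]
        rw [inv_pow, ← pow_mul, mul_comm, pow_mul, hp.pow_eq_one]
        simp
      rw [h2, zero_mul]
  rw [sum_congr rfl h1, sum_ite_eq' (range q) 0]
  have hq' : (q : ℂ) ≠ 0 := by exact_mod_cast hq
  rw [if_pos (mem_range.2 (Nat.pos_of_ne_zero hq))]
  field_simp

end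

end Pool.Agent.Helper65.LT
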